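import Pool.Agent.Helper68.Spread.Growth
import Pool.Agent.Helper5.GapFinal
import Pool.Agent.Helper68.Spread.TBDefs

/-!
`Gap**(β)` for every `β < 1/2`, for groups with a subgroup of bounded index that has a soluble
quotient of bounded derived length which is not virtually nilpotent.
-/

open scoped commutatorElement
open Pool.Agent.Helper5.Gap

namespace Pool.Agent.Helper68.Spread

universe u

section single

variable {G : Type u} [Group G] {X : Set G}

/-- The constant of the single scale statement. -/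
def scaleC (r k : ℕ) : ℕ := 2 * 4 ^ r * (1 + spreadC k)

theorem single_scale (hX : X.Finite) (hXt : Subgroup.closure X = ⊤) (r : ℕ) {k : ℕ} (hk : 1 ≤ k)
    {T : ℕ} (hT : 1 ≤ T) (hg : growth X (scaleC r k * T ^ (2 * k + 12)) < 2 ^ (T ^ k)) :
    VirtNilpotent (G ⧸ derivedSeries G r) := by
  set K := T ^ k with hK
  have hK1 : 1 ≤ K := Nat.one_le_pow _ _ hT
  set L := 4 ^ r * (K + 1) with hL
  set N := derivedSeries G r with hN
  set R := scaleC r k * T ^ (2 * k + 12) with hR
  have hT12 : 1 ≤ T ^ 12 := Nat.one_le_pow _ _ hT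
  have hRL : K * (L + spreadC k * (T ^ 2) ^ 6 * L) ≤ R := by
    have h1 : L ≤ 2 * 4 ^ r * K := by
      rw [hL]
      calc 4 ^ r * (K + 1) ≤ 4 ^ r * (2 * K) := Nat.mul_le_mul_left _ (by omega)
        _ = 2 * 4 ^ r * K := by ring
    calc K * (L + spreadC k * (T ^ 2) ^ 6 * L)
        = K * L * (1 + spreadC k * T ^ 12) := by rw [← pow_mul]; ring
      _ ≤ K * (2 * 4 ^ r * K) * (1 * T ^ 12 + spreadC k * T ^ 12) := by
        gcongr
        omega
      _ = 2 * 4 ^ r * (1 + spreadC k) * (K ^ 2 * T ^ 12) := by ring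
      _ = R := by
        rw [hR, hK, scaleC, ← pow_mul, ← pow_add]
        congr 2
        ring
  have hg' : growth ((QuotientGroup.mk' N) '' X) R < 2 ^ K :=
    lt_of_le_of_lt (growth_quotient N hX _) hg
  have hgen : ∀ i < r, Gen ((QuotientGroup.mk' N) '' X) L (derivedSeries (G ⧸ N) i) := by
    intro i hi
    refine (gen_derivedSeries (hX.image (QuotientGroup.mk' N)) (closure_quotient N hXt)
      hg' r ?_ i hi.le).mono ?_
    · exact le_trans (Nat.mul_le_mul_left _ (Nat.le_add_right _ _)) hRL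
    · exact Nat.mul_le_mul_right _ (Nat.pow_le_pow_right (by norm_num) hi.le)
  refine exists_nilpotent' (hX.image (QuotientGroup.mk' N)) (L := L) ?_ r ?_ hgen
  · intro D hD hDg m θ P h1 h2 h3 h hh
    refine qu_of_growth (hX.image (QuotientGroup.mk' N)) hk (q := T ^ 2) (K := K) ?_ hg' hRL D hDg
      θ P h1 h2 h3 h hh
    rw [hK, ← pow_mul, ← pow_mul, mul_comm]
  · rw [← map_derivedSeries_eq (QuotientGroup.mk'_surjective N) r,
      Subgroup.map_eq_bot_iff, QuotientGroup.ker_mk']

/-- Every coset of a subgroup of index at most `k` meets the ball of radius `k`. -/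
theorem exists_mem_coset (hXt : Subgroup.closure X = ⊤) (H : Subgroup G) (h0 : H.index ≠ 0)
    {k : ℕ} (hk : H.index ≤ k) (g : G) : ∃ t ∈ ball X k, t⁻¹ * g ∈ H := by
  classical
  have hfi : H.FiniteIndex := ⟨h0⟩
  have hfin : Finite (G ⧸ H) := inferInstance
  -- the cosets met by the balls
  let S : ℕ → Set (G ⧸ H) := fun n => (fun g : G => (g : G ⧸ H)) '' ball X n
  have hSmono : ∀ {m n}, m ≤ n → S m ⊆ S n := fun h => Set.image_mono (ball_mono h)
  have hstop : ∀ n, S (n + 1) ⊆ S n → S n = Set.univ := by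
    intro n hn
    have h1 : ∀ x ∈ ball X 1, ∀ c : G, (c : G ⧸ H) ∈ S n → ((x * c : G) : G ⧸ H) ∈ S n := by
      rintro x hx c ⟨b, hb, hbc⟩
      apply hn
      refine ⟨x * b, ?_, ?_⟩
      · rw [add_comm]; exact mul_mem_ball hx hb
      · have h2 : b⁻¹ * c ∈ H := QuotientGroup.eq.1 hbc
        refine QuotientGroup.eq.2 ?_
        rw [mul_inv_rev]
        simpa [mul_assoc] using h2
    rw [Set.eq_univ_iff_forall]
    intro c
    obtain ⟨c, rfl⟩ := QuotientGroup.mk_surjective c
    have hc : c ∈ Subgroup.closure X := by rw [hXt]; trivial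
    induction hc using Subgroup.closure_induction_left with
    | one => exact ⟨1, one_mem_ball n, rfl⟩
    | mul_left x hx y _ ih => exact h1 x (mem_ball_one hx) y ih
    | inv_mul_cancel x hx y _ ih => exact h1 _ (inv_mem_ball (mem_ball_one hx)) y ih
  have hcard : Nat.card (G ⧸ H) = H.index := rfl
  have key : ∀ n, S n = Set.univ ∨ n + 1 ≤ (S n).ncard := by
    intro n
    induction n with
    | zero =>
      right
      rw [Nat.succ_le_iff, Set.ncard_pos]
      exact ⟨_, 1, one_mem_ball 0, rfl⟩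
    | succ n ih =>
      rcases ih with h | h
      · left
        rw [Set.eq_univ_iff_forall] at h ⊢
        exact fun c => hSmono (Nat.le_succ n) (h c)
      · by_cases hs : S (n + 1) ⊆ S n
        · left
          have := hstop n hs
          rw [Set.eq_univ_iff_forall] at this ⊢
          exact fun c => hSmono (Nat.le_succ n) (this c)
        · right
          have h2 : (S n).ncard < (S (n + 1)).ncard :=
            Set.ncard_lt_ncard ⟨hSmono (Nat.le_succ n), hs⟩ (Set.toFinite _)
          omega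
  have hall : S k = Set.univ := by
    rcases key k with h | h
    · exact h
    · have h2 : (S k).ncard ≤ Nat.card (G ⧸ H) := by
        rw [← Set.ncard_univ]
        exact Set.ncard_le_ncard (Set.subset_univ _) (Set.toFinite _)
      omega
  have hg : (g : G ⧸ H) ∈ S k := by rw [hall]; trivial
  obtain ⟨t, ht, htg⟩ := hg
  exact ⟨t, ht, QuotientGroup.eq.1 htg⟩

/-- A subgroup of index at most `k` is generated by elements of length at most `2 k + 1`. -/
theorem gen_of_index (hXt : Subgroup.closure X = ⊤) (H : Subgroup G) (h0 : H.index ≠ 0)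
    {k : ℕ} (hk : H.index ≤ k) : Gen X (2 * k + 1) H := by
  set C := Subgroup.closure ((H : Set G) ∩ ball X (2 * k + 1)) with hC
  have hCH : C ≤ H := (Subgroup.closure_le _).2 Set.inter_subset_left
  have step : ∀ x ∈ ball X 1, ∀ g : G, (∃ t ∈ ball X k, ∃ y ∈ C, g = t * y) →
      ∃ t ∈ ball X k, ∃ y ∈ C, x * g = t * y := by
    rintro x hx g ⟨t, ht, y, hy, rfl⟩
    obtain ⟨t', ht', h1⟩ := exists_mem_coset hXt H h0 hk (x * t)
    refine ⟨t', ht', t'⁻¹ * (x * t) * y, C.mul_mem (Subgroup.subset_closure ⟨h1, ?_⟩) hy, ?_⟩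
    · have h2 := mul_mem_ball (inv_mem_ball ht') (mul_mem_ball hx ht)
      exact ball_mono (by omega) h2
    · group
  have hall : ∀ g : G, ∃ t ∈ ball X k, ∃ y ∈ C, g = t * y := by
    intro g
    have hg : g ∈ Subgroup.closure X := by rw [hXt]; trivial
    induction hg using Subgroup.closure_induction_left with
    | one => exact ⟨1, one_mem_ball k, 1, C.one_mem, by simp⟩
    | mul_left x hx y _ ih => exact step x (mem_ball_one hx) y ih
    | inv_mul_cancel x hx y _ ih => exact step _ (inv_mem_ball (mem_ball_one hx)) y ih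
  intro h hh
  obtain ⟨t, ht, y, hy, rfl⟩ := hall h
  refine C.mul_mem (Subgroup.subset_closure ⟨?_, ball_mono (by omega) ht⟩) hy
  have h1 := H.mul_mem hh (H.inv_mem (hCH hy))
  simpa using h1

theorem ball_subtype {H : Subgroup G} {Y : Set H} {ℓ : ℕ} (hY : ∀ y ∈ Y, (y : G) ∈ ball X ℓ)
    (n : ℕ) (y : H) (hy : y ∈ ball Y n) : (y : G) ∈ ball X (n * ℓ) := by
  obtain ⟨l, hl, hx, rfl⟩ := hy
  induction l generalizing n with
  | nil => simpa using one_mem_ball (X := X) _
  | cons a l ih =>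
    rw [List.length_cons] at hl
    obtain ⟨n, rfl⟩ : ∃ n', n = n' + 1 := ⟨n - 1, by omega⟩
    have h1 := ih n (by omega) (fun x hxl => hx x (List.mem_cons_of_mem _ hxl))
    have h2 : (a : G) ∈ ball X ℓ := by
      rcases hx a List.mem_cons_self with h | h
      · exact hY a h
      · have := inv_mem_ball (hY _ h)
        simpa using this
    rw [List.prod_cons, Subgroup.coe_mul]
    have h3 := mul_mem_ball h2 h1
    exact ball_mono (by rw [Nat.succ_mul]; omega) h3

theorem growth_subgroup (hX : X.Finite) {H : Subgroup G} {Y : Set H} {ℓ : ℕ}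
    (hY : ∀ y ∈ Y, (y : G) ∈ ball X ℓ) (n : ℕ) : growth Y n ≤ growth X (n * ℓ) := by
  unfold growth
  rw [← Set.ncard_image_of_injective (ball Y n) (Subtype.val_injective (p := fun g => g ∈ H))]
  refine Set.ncard_le_ncard ?_ (ball_finite hX _)
  rintro _ ⟨y, hy, rfl⟩
  exact ball_subtype hY n y hy

theorem single_scale_index (hX : X.Finite) (hXt : Subgroup.closure X = ⊤) (r : ℕ) {k j : ℕ}
    (hk : 1 ≤ k) (H : Subgroup G) (h0 : H.index ≠ 0) (hj : H.index ≤ j)
    {T : ℕ} (hT : 1 ≤ T)
    (hg : growth X (scaleC r k * (2 * j + 1) * T ^ (2 * k + 12)) < 2 ^ (T ^ k)) :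
    VirtNilpotent (H ⧸ derivedSeries H r) := by
  set Y : Set H := {y | (y : G) ∈ ball X (2 * j + 1)} with hY
  have hYf : Y.Finite := Set.Finite.preimage Subtype.val_injective.injOn (ball_finite hX _)
  have hYt : Subgroup.closure Y = ⊤ := by
    have h1 := gen_of_index hXt H h0 hj
    rw [eq_top_iff]
    rintro ⟨h, hh⟩ _
    have h2 : h ∈ (Subgroup.closure Y).map H.subtype := by
      rw [MonoidHom.map_closure]
      refine Subgroup.closure_mono ?_ (h1 hh)
      rintro x ⟨hx1, hx2⟩
      exact ⟨⟨x, hx1⟩, hx2, rfl⟩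
    obtain ⟨y, hy, hye⟩ := h2
    have h3 : y = ⟨h, hh⟩ := Subtype.ext hye
    rw [← h3]
    exact hy
  refine single_scale hYf hYt r hk hT (lt_of_le_of_lt (growth_subgroup (ℓ := 2 * j + 1) hX
    (fun y hy => hy) _) ?_)
  have h1 : scaleC r k * T ^ (2 * k + 12) * (2 * j + 1) =
      scaleC r k * (2 * j + 1) * T ^ (2 * k + 12) := by ring
  rw [h1]
  exact hg

end single

/-- From a bound along a sequence of scales to the uniform gap. -/
theorem uniformGap_of_scales (𝒞 : ∀ (G : Type u) [Group G], Prop) (C a b : ℕ) (hC : 1 ≤ C)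
    (ha : 1 ≤ a) (hb : 1 ≤ b)
    (h : ∀ (G : Type u) [Group G] (X : Finset G), Subgroup.closure (X : Set G) = ⊤ → 𝒞 G →
      ∀ T : ℕ, 1 ≤ T → growth (X : Set G) (C * T ^ a) < 2 ^ (T ^ b) → VirtNilpotent G) :
    UniformGap 𝒞 ((b : ℝ) / a) := by
  classical
  set κ : ℕ → ℕ := fun n => Nat.findGreatest (fun K => C * K ^ a ≤ n) n with hκ
  have hκspec : ∀ n, C * (κ n) ^ a ≤ n := by
    intro n
    have := Nat.findGreatest_spec (P := fun K => C * K ^ a ≤ n) (m := 0) (n := n) (Nat.zero_le _)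
      (by rw [zero_pow (by omega), mul_zero]; exact Nat.zero_le _)
    exact this
  have hκle : ∀ n K, C * K ^ a ≤ n → K ≤ κ n := by
    intro n K hK
    refine Nat.le_findGreatest ?_ hK
    calc K ≤ K ^ a := Nat.le_self_pow (by omega) K
      _ ≤ C * K ^ a := Nat.le_mul_of_pos_left _ hC
      _ ≤ n := hK
  have haR : (0 : ℝ) < a := by exact_mod_cast ha
  refine ⟨fun n => (2 : ℝ) ^ ((κ n) ^ b), ?_, ⟨C * 3 ^ a, ?_, ?_⟩, ?_⟩
  · intro m n hmn
    refine pow_le_pow_right₀ (by norm_num) (Nat.pow_le_pow_left ?_ b)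
    exact hκle n _ ((hκspec m).trans hmn)
  · exact Nat.one_le_iff_ne_zero.2 (by positivity)
  · intro n hn
    set t : ℝ := (n : ℝ) ^ (1 / (a : ℝ)) with ht
    have hn1 : (1 : ℝ) ≤ n := by exact_mod_cast hn
    have ht1 : 1 ≤ t := Real.one_le_rpow hn1 (by positivity)
    have hte : t ^ a = n := by
      rw [ht, ← Real.rpow_natCast, ← Real.rpow_mul (by positivity)]
      rw [one_div, inv_mul_cancel₀ (by positivity), Real.rpow_one]
    have htb : (n : ℝ) ^ ((b : ℝ) / a) = t ^ b := by
      rw [ht, ← Real.rpow_natCast, ← Real.rpow_mul (by positivity)]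
      congr 1
      ring
    set K := ⌊3 * t⌋₊ with hK
    have hKt : (K : ℝ) ≤ 3 * t := Nat.floor_le (by positivity)
    have hKt' : 2 * t ≤ K := by
      have := Nat.lt_floor_add_one (3 * t)
      rw [← hK] at this
      linarith
    have h1 : K ≤ κ (C * 3 ^ a * n) := by
      apply hκle
      rw [mul_assoc]
      apply Nat.mul_le_mul_left
      have h2 : (K : ℝ) ^ a ≤ (3 * t) ^ a := pow_le_pow_left₀ (by positivity) hKt a
      rw [mul_pow, hte] at h2
      exact_mod_cast h2
    have h3 : Real.exp ((n : ℝ) ^ ((b : ℝ) / a)) ≤ (2 : ℝ) ^ (K ^ b) := by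
      have h4 : (2 : ℝ) ^ (K ^ b) = Real.exp ((K : ℝ) ^ b * Real.log 2) := by
        rw [mul_comm, Real.exp_mul, Real.exp_log (by norm_num), ← Real.rpow_natCast]
        push_cast
        rfl
      rw [h4, htb]
      apply Real.exp_le_exp.2
      have h5 : (1 : ℝ) / 2 ≤ Real.log 2 := by
        have := Real.log_two_gt_d9
        linarith
      have h6 : 2 * t ^ b ≤ (K : ℝ) ^ b := by
        calc 2 * t ^ b ≤ 2 ^ b * t ^ b := by
              gcongr
              calc (2 : ℝ) = 2 ^ 1 := (pow_one _).symm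
                _ ≤ 2 ^ b := pow_le_pow_right₀ (by norm_num) hb
          _ = (2 * t) ^ b := (mul_pow _ _ _).symm
          _ ≤ (K : ℝ) ^ b := pow_le_pow_left₀ (by positivity) hKt' b
      have h7 : 0 ≤ t ^ b := by positivity
      nlinarith
    refine h3.trans ?_
    exact pow_le_pow_right₀ (by norm_num) (Nat.pow_le_pow_left h1 b)
  · intro G _ X hXt hG hvn n _
    have hX : (X : Set G).Finite := X.finite_toSet
    rcases Nat.eq_zero_or_pos (κ n) with h0 | hpos
    · show (2 : ℝ) ^ ((κ n) ^ b) ≤ _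
      rw [h0, zero_pow (by omega), pow_zero]
      exact_mod_cast growth_pos hX n
    · have h1 : ¬ growth (X : Set G) (C * (κ n) ^ a) < 2 ^ ((κ n) ^ b) :=
        fun hlt => hvn (h G X hXt hG (κ n) hpos hlt)
      have h2 : 2 ^ ((κ n) ^ b) ≤ growth (X : Set G) n :=
        (not_lt.1 h1).trans (growth_mono hX (hκspec n))
      show (2 : ℝ) ^ ((κ n) ^ b) ≤ _
      exact_mod_cast h2

theorem uniformGap_mono {𝒞 : ∀ (G : Type u) [Group G], Prop} {β β' : ℝ} (h : UniformGap 𝒞 β)
    (hβ : β' ≤ β) : UniformGap 𝒞 β' := by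
  obtain ⟨f, hf, ⟨C, hC, hC'⟩, h⟩ := h
  refine ⟨f, hf, ⟨C, hC, fun n hn => le_trans ?_ (hC' n hn)⟩, h⟩
  apply Real.exp_le_exp.2
  exact Real.rpow_le_rpow_of_exponent_le (by exact_mod_cast hn) hβ

/-- **Main result.** -/
theorem gap_boundedSoluble (r j : ℕ) (β : ℝ) (hβ : β < 1 / 2) :
    UniformGap.{u} (fun G _ => BoundedSoluble r j G) β := by
  obtain ⟨k, hk⟩ := exists_nat_ge (12 * |β| / (1 - 2 * β) + 1)
  have h12 : 0 < 1 - 2 * β := by linarith
  have hk1 : (1 : ℝ) ≤ k := le_trans (by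
    have : 0 ≤ 12 * |β| / (1 - 2 * β) := by positivity
    linarith) hk
  have hk1' : 1 ≤ k := by exact_mod_cast hk1
  have hmain := uniformGap_of_scales.{u} (fun G _ => BoundedSoluble r j G)
    (scaleC r k * (2 * j + 1)) (2 * k + 12) k
    (Nat.one_le_iff_ne_zero.2 (by unfold scaleC; positivity)) (by omega) hk1' (by
      intro G _ X hXt hG T hT hg
      obtain ⟨H, h0, hj, hH⟩ := hG
      exact absurd (single_scale_index X.finite_toSet hXt r hk1' H h0 hj hT hg) hH)
  refine uniformGap_mono hmain ?_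
  push_cast
  rw [le_div_iff₀ (by positivity)]
  have h1 : 12 * |β| / (1 - 2 * β) ≤ k := by linarith
  rw [div_le_iff₀ h12] at h1
  have h2 : β ≤ |β| := le_abs_self β
  nlinarith

end Pool.Agent.Helper68.Spread
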