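import Mathlib
import Pool.Agent.Helper5.GapDefs
import Pool.Agent.Helper68.Spread.TBDefs
import Pool.Agent.Helper68.Spread.FinalTB

/-!
# Uniform gap with every exponent below `1/2` for bounded derived length

The definitions are in `Pool/Agent/Helper5/GapDefs.lean` and
`Pool/Agent/Helper68/Spread/TBDefs.lean`.
-/

namespace Pool.Agent.Helper68.Spread.BoundedSolubleHalf

open Pool.Agent.Helper5.Gap Pool.Agent.Helper68.Spread

universe u

/-- **Main result.** Let `r` and `j` be natural numbers and let `β < 1/2`. Then `Gap**(β)` holds
for the class of all groups `G` that have a subgroup of index at most `j` with a quotient that is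
soluble of derived length at most `r` and not virtually nilpotent: one non-decreasing function
`f` with `f(n) ≽ exp(n^β)` is a lower bound for all growth functions `γ_X` of all such groups
`G = ⟨X⟩`. -/
theorem result (r j : ℕ) (β : ℝ) (hβ : β < 1 / 2) :
    UniformGap.{u} (fun G _ => BoundedSoluble r j G) β :=
  gap_boundedSoluble r j β hβ

end Pool.Agent.Helper68.Spread.BoundedSolubleHalf
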