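import Pool.Agent.Helper68.Spread.Ht

/-!
A weak form of Dobrowolski's theorem: `2 ≤ ht y ^ (C q ^ 2)` as soon as `[K : ℚ] ^ 2 ≤ q ^ k`.
-/

open Polynomial Module IntermediateField

namespace Pool.Agent.Helper68.Spread

/-- Pigeonhole for complex vectors. -/
theorem box_pigeonhole {ι α : Type*} [Fintype ι] [Fintype α] (v : α → ι → ℂ) (R : ι → ℝ)
    (hR : ∀ i, 0 < R i) (hv : ∀ a i, ‖v a i‖ ≤ R i) (q : ℕ) (hq : 0 < q)
    (hcard : (q + 1) ^ (2 * Fintype.card ι) < Fintype.card α) :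
    ∃ a b, a ≠ b ∧ ∀ i, ‖v a i - v b i‖ ≤ 4 * R i / q := by
  classical
  have hq' : (0 : ℝ) < q := by exact_mod_cast hq
  -- the box of a real number
  have hbox : ∀ (x r : ℝ), 0 < r → |x| ≤ r → ⌊(x + r) * q / (2 * r)⌋₊ < q + 1 := by
    intro x r hr hx
    rw [Nat.floor_lt' (by omega)]
    have h1 : x + r ≤ 2 * r := by
      have := (abs_le.1 hx).2
      linarith
    rw [div_lt_iff₀ (by positivity)]
    push_cast
    nlinarith
  have hclose : ∀ (x x' r : ℝ), 0 < r → |x| ≤ r → |x'| ≤ r →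
      ⌊(x + r) * q / (2 * r)⌋₊ = ⌊(x' + r) * q / (2 * r)⌋₊ → |x - x'| ≤ 2 * r / q := by
    intro x x' r hr hx hx' h
    have h0 : 0 ≤ (x + r) * q / (2 * r) := by
      have := (abs_le.1 hx).1
      have : 0 ≤ x + r := by linarith
      positivity
    have h0' : 0 ≤ (x' + r) * q / (2 * r) := by
      have := (abs_le.1 hx').1
      have : 0 ≤ x' + r := by linarith
      positivity
    have h1 := Nat.floor_le h0
    have h2 := Nat.lt_floor_add_one ((x + r) * q / (2 * r))
    have h3 := Nat.floor_le h0'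
    have h4 := Nat.lt_floor_add_one ((x' + r) * q / (2 * r))
    rw [h] at h1 h2
    have h5 : |(x + r) * q / (2 * r) - (x' + r) * q / (2 * r)| ≤ 1 := by
      rw [abs_le]
      constructor <;> linarith
    have h6 : (x + r) * q / (2 * r) - (x' + r) * q / (2 * r) = (x - x') * (q / (2 * r)) := by
      field_simp
      ring
    rw [h6, abs_mul, abs_of_pos (by positivity : (0 : ℝ) < q / (2 * r))] at h5
    rw [le_div_iff₀ hq']
    have h7 : |x - x'| * (q / (2 * r)) * (2 * r) = |x - x'| * q := by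
      field_simp
    nlinarith
  have hre : ∀ a i, |(v a i).re| ≤ R i := fun a i => (Complex.abs_re_le_norm _).trans (hv a i)
  have him : ∀ a i, |(v a i).im| ≤ R i := fun a i => (Complex.abs_im_le_norm _).trans (hv a i)
  let f : α → ι → Fin (q + 1) × Fin (q + 1) := fun a i =>
    (⟨⌊((v a i).re + R i) * q / (2 * R i)⌋₊, hbox _ _ (hR i) (hre a i)⟩,
     ⟨⌊((v a i).im + R i) * q / (2 * R i)⌋₊, hbox _ _ (hR i) (him a i)⟩)
  obtain ⟨a, b, hab, hf⟩ := Fintype.exists_ne_map_eq_of_card_lt f (by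
    rw [Fintype.card_fun, Fintype.card_prod, Fintype.card_fin, ← pow_two, ← pow_mul]
    exact hcard)
  refine ⟨a, b, hab, fun i => ?_⟩
  have h1 := congrFun hf i
  simp only [f, Prod.mk.injEq, Fin.mk.injEq] at h1
  have h2 := hclose _ _ _ (hR i) (hre a i) (hre b i) h1.1
  have h3 := hclose _ _ _ (hR i) (him a i) (him b i) h1.2
  have h4 := Complex.norm_le_abs_re_add_abs_im (v a i - v b i)
  rw [Complex.sub_re, Complex.sub_im] at h4
  have h5 : 4 * R i / q = 2 * R i / q + 2 * R i / q := by ring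
  rw [h5]
  linarith

/-- Trivial bound for the value of a polynomial. -/
theorem norm_eval₂_le {P : ℤ[X]} {N : ℕ} {B : ℝ} (hN : P.natDegree < N)
    (hB : ∀ i, |(P.coeff i : ℝ)| ≤ B) (w : ℂ) :
    ‖eval₂ (Int.castRingHom ℂ) w P‖ ≤ N * B * (max 1 ‖w‖) ^ N := by
  rw [eval₂_eq_sum_range' _ hN]
  have hB0 : 0 ≤ B := (abs_nonneg _).trans (hB 0)
  calc ‖∑ i ∈ Finset.range N, (Int.castRingHom ℂ) (P.coeff i) * w ^ i‖
      ≤ ∑ i ∈ Finset.range N, ‖(Int.castRingHom ℂ) (P.coeff i) * w ^ i‖ := norm_sum_le _ _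
    _ ≤ ∑ _i ∈ Finset.range N, B * (max 1 ‖w‖) ^ N := by
        refine Finset.sum_le_sum fun i hi => ?_
        rw [norm_mul, norm_pow]
        have h1 : ‖(Int.castRingHom ℂ) (P.coeff i)‖ = |(P.coeff i : ℝ)| := by
          simp
        rw [h1]
        refine mul_le_mul (hB i) ?_ (by positivity) hB0
        calc ‖w‖ ^ i ≤ (max 1 ‖w‖) ^ i := pow_le_pow_left₀ (norm_nonneg _) (le_max_right _ _) i
          _ ≤ (max 1 ‖w‖) ^ N :=
            pow_le_pow_right₀ (le_max_left _ _) (Finset.mem_range.1 hi).le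
    _ = N * B * (max 1 ‖w‖) ^ N := by
        rw [Finset.sum_const, Finset.card_range, nsmul_eq_mul]
        ring

variable {K : Type*} [Field K] [NumberField K]

omit [NumberField K] in
theorem map_aeval_int (σ : K →+* ℂ) (y : K) (P : ℤ[X]) :
    σ (aeval y P) = eval₂ (Int.castRingHom ℂ) (σ y) P := by
  rw [aeval_def, hom_eval₂]
  congr 1
  exact RingHom.ext_int _ _

omit [NumberField K] in
theorem isIntegral_aeval {y : K} (hy : IsIntegral ℤ y) (P : ℤ[X]) : IsIntegral ℤ (aeval y P) :=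
  adjoin_le_integralClosure hy (aeval_mem_adjoin_singleton ℤ y)

/-- The Frobenius congruence. -/
theorem exists_expand (f : ℤ[X]) {p : ℕ} (hp : p.Prime) :
    ∃ g : ℤ[X], expand ℤ p f = f ^ p + C (p : ℤ) * g := by
  have hfact : Fact p.Prime := ⟨hp⟩
  have h1 : map (Int.castRingHom (ZMod p)) (expand ℤ p f - f ^ p) = 0 := by
    rw [Polynomial.map_sub, map_expand, Polynomial.map_pow, ZMod.expand_card, sub_self]
  have h2 : C (p : ℤ) ∣ expand ℤ p f - f ^ p := by
    rw [C_dvd_iff_dvd_coeff]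
    intro i
    have h3 := congrArg (fun P : (ZMod p)[X] => P.coeff i) h1
    simp only [coeff_map, coeff_zero, eq_intCast] at h3
    exact (ZMod.intCast_zmod_eq_zero_iff_dvd _ _).1 h3
  obtain ⟨g, hg⟩ := h2
  exact ⟨g, by rw [← hg]; ring⟩

theorem aeval_pow_eq_zero {y : K} (hy : IsIntegral ℤ y) {f F : ℤ[X]} (hf : aeval y f = 0)
    {k : ℕ} (hF : f ^ k ∣ F) {N : ℕ} {B : ℝ} (hN : F.natDegree < N)
    (hB : ∀ i, |(F.coeff i : ℝ)| ≤ B) {p : ℕ} (hp : p.Prime)
    (hlt : (N * B) ^ finrank ℚ K * ht y ^ (p * N) < (p : ℝ) ^ (k * finrank ℚ K)) :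
    aeval (y ^ p) F = 0 := by
  obtain ⟨G, rfl⟩ := hF
  obtain ⟨g, hg⟩ := exists_expand f hp
  have h1 : aeval (y ^ p) f = (p : K) * aeval y g := by
    rw [← expand_aeval, hg]
    simp [hf, hp.ne_zero]
  set η : K := (aeval y g) ^ k * aeval (y ^ p) G with hη
  have h2 : aeval (y ^ p) (f ^ k * G) = (p : K) ^ k * η := by
    rw [map_mul, map_pow, h1, hη]
    ring
  by_contra hne
  have hη0 : η ≠ 0 := by
    intro h
    apply hne
    rw [h2, h, mul_zero]
  have hηi : IsIntegral ℤ η :=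
    ((isIntegral_aeval hy g).pow k).mul (isIntegral_aeval (hy.pow p) G)
  have h3 := one_le_prod_norm hηi hη0
  have hcard : (Finset.univ : Finset (K →+* ℂ)).card = finrank ℚ K := by
    rw [Finset.card_univ, NumberField.Embeddings.card K ℂ]
  have h4 : (p : ℝ) ^ (k * finrank ℚ K) ≤ ∏ σ : K →+* ℂ, ‖σ (aeval (y ^ p) (f ^ k * G))‖ := by
    calc (p : ℝ) ^ (k * finrank ℚ K) = (p : ℝ) ^ (k * finrank ℚ K) * 1 := (mul_one _).symm
      _ ≤ (p : ℝ) ^ (k * finrank ℚ K) * ∏ σ : K →+* ℂ, ‖σ η‖ := by gcongr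
      _ = ∏ σ : K →+* ℂ, ((p : ℝ) ^ k * ‖σ η‖) := by
        rw [Finset.prod_mul_distrib, Finset.prod_const, hcard, ← pow_mul]
      _ = ∏ σ : K →+* ℂ, ‖σ (aeval (y ^ p) (f ^ k * G))‖ := by
        refine Finset.prod_congr rfl fun σ _ => ?_
        have h6 : σ ((p : K) ^ k * η) = (p : ℂ) ^ k * σ η := by
          rw [map_mul σ, map_pow, map_natCast]
        rw [h2, h6, norm_mul, norm_pow, Complex.norm_natCast]
  have h5 : ∏ σ : K →+* ℂ, ‖σ (aeval (y ^ p) (f ^ k * G))‖ ≤
      (N * B) ^ finrank ℚ K * ht y ^ (p * N) := by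
    calc ∏ σ : K →+* ℂ, ‖σ (aeval (y ^ p) (f ^ k * G))‖
        ≤ ∏ σ : K →+* ℂ, (N * B * (max 1 ‖σ (y ^ p)‖) ^ N) := by
          refine Finset.prod_le_prod (fun σ _ => norm_nonneg _) fun σ _ => ?_
          rw [map_aeval_int]
          exact norm_eval₂_le hN hB _
      _ = (N * B) ^ finrank ℚ K * ht y ^ (p * N) := by
          rw [Finset.prod_mul_distrib, Finset.prod_const, hcard, Finset.prod_pow]
          congr 1
          have : ∏ σ : K →+* ℂ, max 1 ‖σ (y ^ p)‖ = ht (y ^ p) := rfl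
          rw [this, ht_pow, ← pow_mul]
  linarith

/-- The polynomial with prescribed coefficients. -/
noncomputable def polyOf {N : ℕ} (c : Fin N → ℤ) : ℤ[X] := ∑ i : Fin N, monomial (i : ℕ) (c i)

theorem coeff_polyOf {N : ℕ} (c : Fin N → ℤ) (j : ℕ) :
    (polyOf c).coeff j = if h : j < N then c ⟨j, h⟩ else 0 := by
  classical
  unfold polyOf
  rw [finsetSum_coeff]
  split_ifs with h
  · rw [Finset.sum_eq_single ⟨j, h⟩]
    · simp
    · intro i _ hi
      rw [coeff_monomial, if_neg]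
      intro h'
      exact hi (Fin.ext h')
    · simp
  · refine Finset.sum_eq_zero fun i _ => ?_
    rw [coeff_monomial, if_neg]
    intro h'
    exact h (h' ▸ i.2)

theorem polyOf_natDegree_lt {N : ℕ} (hN : 0 < N) (c : Fin N → ℤ) : (polyOf c).natDegree < N := by
  by_contra h
  push Not at h
  have h1 : (polyOf c).leadingCoeff = 0 := by
    rw [leadingCoeff, coeff_polyOf, dif_neg (by omega)]
  rw [leadingCoeff_eq_zero] at h1
  rw [h1, natDegree_zero] at h
  omega

/-- The auxiliary polynomial. -/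
theorem exists_aux {y : K} (hy : IsIntegral ℤ y) (hgen : ℚ⟮y⟯ = ⊤) {k : ℕ} (hk : 1 ≤ k)
    (hht : ht y ^ (8 * k ^ 2 * finrank ℚ K) ≤ 2 ^ finrank ℚ K) :
    ∃ F : ℤ[X], F ≠ 0 ∧ F.natDegree < 8 * k ^ 2 * finrank ℚ K ∧
      (∀ i, |(F.coeff i : ℝ)| ≤ 8 * (8 * k ^ 2 * finrank ℚ K : ℕ)) ∧ (minpoly ℤ y) ^ k ∣ F := by
  classical
  set D := finrank ℚ K with hD
  have hDpos : 0 < D := Module.finrank_pos
  set N := 8 * k ^ 2 * D with hN
  have hNpos : 0 < N := by positivity
  have hcardE : Fintype.card (K →+* ℂ) = D := NumberField.Embeddings.card K ℂ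
  -- values
  let pc : (Fin N → Fin (8 * N)) → ℤ[X] := fun c => polyOf fun i => ((c i : ℕ) : ℤ)
  have hpcdeg : ∀ c, (pc c).natDegree < N := fun c => polyOf_natDegree_lt hNpos _
  have hpccoeff : ∀ c i, |((pc c).coeff i : ℝ)| ≤ (8 * N : ℕ) := by
    intro c i
    simp only [pc, coeff_polyOf]
    split_ifs with h
    · have := (c ⟨i, h⟩).2
      rw [Int.cast_natCast, abs_of_nonneg (by positivity)]
      exact_mod_cast this.le
    · simp
  have hder : ∀ (P : ℤ[X]) (j : ℕ) (B : ℝ), j < k → P.natDegree < N →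
      (∀ i, |(P.coeff i : ℝ)| ≤ B) → (derivative^[j] P).natDegree < N ∧
      ∀ i, |((derivative^[j] P).coeff i : ℝ)| ≤ (N : ℝ) ^ k * B := by
    intro P j B hj hP hB
    refine ⟨lt_of_le_of_lt (natDegree_iterate_derivative P j)
      (lt_of_le_of_lt (Nat.sub_le _ _) hP), ?_⟩
    intro i
    rw [coeff_iterate_derivative]
    have hB0 : 0 ≤ B := (abs_nonneg _).trans (hB 0)
    rcases lt_or_ge (i + j) N with h | h
    · rw [nsmul_eq_mul]
      push_cast
      rw [abs_mul]
      refine mul_le_mul ?_ (hB _) (abs_nonneg _) (by positivity)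
      rw [abs_of_nonneg (by positivity)]
      have h1 : (i + j).descFactorial j ≤ N ^ k := by
        calc (i + j).descFactorial j ≤ (i + j) ^ j := Nat.descFactorial_le_pow _ _
          _ ≤ N ^ j := Nat.pow_le_pow_left h.le j
          _ ≤ N ^ k := Nat.pow_le_pow_right hNpos hj.le
      exact_mod_cast h1
    · rw [coeff_eq_zero_of_natDegree_lt (lt_of_lt_of_le hP h)]
      simp only [smul_zero, Int.cast_zero, abs_zero]
      positivity
  let R : (K →+* ℂ) × Fin k → ℝ := fun i => 8 * (N : ℝ) ^ (k + 2) * (max 1 ‖i.1 y‖) ^ N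
  have hR : ∀ i, 0 < R i := fun i => by
    have : (0 : ℝ) < N := by exact_mod_cast hNpos
    positivity
  have hv : ∀ (c : Fin N → Fin (8 * N)) (i : (K →+* ℂ) × Fin k),
      ‖i.1 (aeval y (derivative^[(i.2 : ℕ)] (pc c)))‖ ≤ R i := by
    intro c i
    obtain ⟨h1, h2⟩ := hder (pc c) i.2 (8 * N : ℕ) i.2.2 (hpcdeg c) (hpccoeff c)
    rw [map_aeval_int]
    refine (norm_eval₂_le h1 h2 _).trans (le_of_eq ?_)
    simp only [R]
    push_cast
    ring
  obtain ⟨a, b, hab, hclose⟩ := box_pigeonhole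
    (fun (c : Fin N → Fin (8 * N)) (i : (K →+* ℂ) × Fin k) =>
      i.1 (aeval y (derivative^[(i.2 : ℕ)] (pc c)))) R hR hv (128 * N ^ (k + 2)) (by positivity) (by
      rw [Fintype.card_prod, hcardE, Fintype.card_fin, Fintype.card_fun, Fintype.card_fin,
        Fintype.card_fin]
      have h1 : 128 * N ^ (k + 2) + 1 < (8 * N) ^ (4 * k) := by
        have h2 : 1 ≤ N ^ (k + 2) := Nat.one_le_pow _ _ hNpos
        calc 128 * N ^ (k + 2) + 1 < 8 ^ 3 * N ^ (k + 2) := by omega
          _ ≤ 8 ^ (k + 2) * N ^ (k + 2) := by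
            gcongr
            · norm_num
            · omega
          _ = (8 * N) ^ (k + 2) := (mul_pow _ _ _).symm
          _ ≤ (8 * N) ^ (4 * k) := Nat.pow_le_pow_right (by positivity) (by omega)
      calc (128 * N ^ (k + 2) + 1) ^ (2 * (D * k))
          < ((8 * N) ^ (4 * k)) ^ (2 * (D * k)) := Nat.pow_lt_pow_left h1 (by positivity)
        _ = (8 * N) ^ N := by
          rw [← pow_mul]
          congr 1
          rw [hN]
          ring)
  set F := pc a - pc b with hF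
  have hF0 : F ≠ 0 := by
    intro h
    apply hab
    funext i
    have h1 := congrArg (fun P : ℤ[X] => P.coeff (i : ℕ)) h
    simp only [hF, pc, coeff_sub, coeff_polyOf, Fin.is_lt, dif_pos, coeff_zero, Fin.eta] at h1
    apply Fin.ext
    omega
  refine ⟨F, hF0, ?_, ?_, ?_⟩
  · exact lt_of_le_of_lt (natDegree_sub_le _ _) (max_lt (hpcdeg a) (hpcdeg b))
  · intro i
    rw [hF, coeff_sub]
    simp only [pc, coeff_polyOf]
    split_ifs with h
    · have h1 := (a ⟨i, h⟩).2
      have h2 := (b ⟨i, h⟩).2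
      have h3 : |((a ⟨i, h⟩ : ℕ) : ℤ) - ((b ⟨i, h⟩ : ℕ) : ℤ)| ≤ ((8 * N : ℕ) : ℤ) := by
        rw [abs_le]
        constructor <;> omega
      have h4 : ((|((a ⟨i, h⟩ : ℕ) : ℤ) - ((b ⟨i, h⟩ : ℕ) : ℤ)| : ℤ) : ℝ) ≤
          (((8 * N : ℕ) : ℤ) : ℝ) := by exact_mod_cast h3
      rw [Int.cast_abs] at h4
      refine h4.trans (le_of_eq ?_)
      push_cast
      ring
    · simp
  · -- all derivatives vanish
    have hzero : ∀ j < k, aeval y (derivative^[j] F) = 0 := by
      intro j hj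
      by_contra hne
      have h1 := one_le_prod_norm (isIntegral_aeval hy (derivative^[j] F)) hne
      have h2 : ∏ σ : K →+* ℂ, ‖σ (aeval y (derivative^[j] F))‖ ≤
          ∏ σ : K →+* ℂ, (1 / 4 * (max 1 ‖σ y‖) ^ N) := by
        refine Finset.prod_le_prod (fun σ _ => norm_nonneg _) fun σ _ => ?_
        have h3 := hclose (σ, ⟨j, hj⟩)
        simp only at h3
        rw [hF, iterate_derivative_sub, map_sub, map_sub]
        refine h3.trans (le_of_eq ?_)
        simp only [R]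
        have h4 : (N : ℝ) ^ (k + 2) ≠ 0 := by
          have : (N : ℝ) ≠ 0 := by exact_mod_cast hNpos.ne'
          exact pow_ne_zero _ this
        push_cast
        field_simp
        ring
      rw [Finset.prod_mul_distrib, Finset.prod_const, Finset.card_univ, hcardE,
        Finset.prod_pow] at h2
      have h5 : ∏ σ : K →+* ℂ, max 1 ‖σ y‖ = ht y := rfl
      rw [h5] at h2
      have h6 : (1 / 4 : ℝ) ^ D * ht y ^ N ≤ (1 / 4 : ℝ) ^ D * 2 ^ D := by gcongr
      rw [← mul_pow] at h6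
      have h7 : (1 / 4 * 2 : ℝ) ^ D < 1 := pow_lt_one₀ (by norm_num) (by norm_num) hDpos.ne'
      linarith
    -- divisibility over `ℂ`
    rw [← Polynomial.map_dvd_map (Int.castRingHom ℂ) (RingHom.injective_int _)
      ((minpoly.monic hy).pow k), Polynomial.map_pow, minpoly_map_eq_prod hy hgen,
      ← Finset.prod_pow]
    refine Finset.prod_dvd_of_coprime ?_ ?_
    · intro σ _ τ _ hne
      exact IsCoprime.pow (pairwise_coprime_X_sub_C (injective_of_top hgen) hne)
    · intro σ _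
      have hFC : F.map (Int.castRingHom ℂ) ≠ 0 := by
        rw [Ne, Polynomial.map_eq_zero_iff (RingHom.injective_int _)]
        exact hF0
      rw [← le_rootMultiplicity_iff hFC]
      obtain ⟨k', rfl⟩ : ∃ k', k = k' + 1 := ⟨k - 1, by omega⟩
      rw [Nat.succ_le_iff]
      refine lt_rootMultiplicity_of_isRoot_iterate_derivative_of_mem_nonZeroDivisors hFC ?_ ?_
      · intro m hm
        rw [IsRoot, iterate_derivative_map, eval_map, ← map_aeval_int, hzero m (by omega),
          map_zero]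
      · rw [mem_nonZeroDivisors_iff_ne_zero]
        exact_mod_cast Nat.factorial_ne_zero k'

end Pool.Agent.Helper68.Spread
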