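import Pool.Agent.Helper68.Spread.Weak
import Pool.Agent.Helper5.GapSoluble

/-!
Growth from an eigenvalue that is not a root of unity, with the spreading lemma.
-/

open scoped commutatorElement
open Pool.Agent.Helper5.Gap

namespace Pool.Agent.Helper68.Spread

variable {G : Type*} [Group G] {X : Set G}

/-- The word `a^ε₀ s a^ε₁ s ⋯ a^ε_{n-1} s`, where `ε_i = 1` exactly when `i ∈ S`. -/
noncomputable def word (a s : G) (S : Finset ℕ) : ℕ → G
  | 0 => 1
  | n + 1 => word a s S n * (if n ∈ S then a else 1) * s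

theorem word_mem_ball {a t : G} {ℓ ℓ' m : ℕ} (ha : a ∈ ball X ℓ) (ht : t ∈ ball X ℓ')
    (S : Finset ℕ) (n : ℕ) : word a (t ^ m) S n ∈ ball X (n * (ℓ + m * ℓ')) := by
  induction n with
  | zero => exact one_mem_ball _
  | succ n ih =>
    have h1 : (if n ∈ S then a else 1) ∈ ball X ℓ := by
      split_ifs
      · exact ha
      · exact one_mem_ball _
    have h2 := mul_mem_ball (mul_mem_ball ih h1) (pow_mem_ball ht m)
    rw [word]
    refine ball_mono (le_of_eq ?_) h2
    ring

theorem word_value (D : Subgroup G) [D.Normal] (φ : G → ℂ)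
    (hadd : ∀ x ∈ D, ∀ y ∈ D, φ (x * y) = φ x + φ y) (t : G) (z : ℂ)
    (hconj : ∀ n : ℕ, ∀ x ∈ D, φ (t ^ n * x * (t ^ n)⁻¹) = z ^ n * φ x) (a : G) (ha : a ∈ D)
    (m : ℕ) (S : Finset ℕ) (n : ℕ) :
    word a (t ^ m) S n * ((t ^ m) ^ n)⁻¹ ∈ D ∧
    φ (word a (t ^ m) S n * ((t ^ m) ^ n)⁻¹) =
      ∑ i ∈ Finset.range n, ((if i ∈ S then 1 else 0 : ℤ) : ℂ) * z ^ (m * i) * φ a := by
  have hDn : D.Normal := inferInstance
  have hφ1 : φ 1 = 0 := by
    have := hadd 1 D.one_mem 1 D.one_mem
    rw [mul_one] at this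
    linear_combination -this
  induction n with
  | zero => simp [word, hφ1]
  | succ n ih =>
    set ε : G := if n ∈ S then a else 1 with hε
    have hεD : ε ∈ D := by
      rw [hε]
      split_ifs
      · exact ha
      · exact D.one_mem
    have hεφ : φ ε = ((if n ∈ S then 1 else 0 : ℤ) : ℂ) * φ a := by
      rw [hε]
      split_ifs
      · simp
      · simp [hφ1]
    have h1 : word a (t ^ m) S (n + 1) * ((t ^ m) ^ (n + 1))⁻¹ =
        (word a (t ^ m) S n * ((t ^ m) ^ n)⁻¹) * (t ^ (m * n) * ε * (t ^ (m * n))⁻¹) := by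
      rw [word, ← hε, pow_succ, pow_mul]
      group
    have h2 : t ^ (m * n) * ε * (t ^ (m * n))⁻¹ ∈ D := hDn.conj_mem _ hεD _
    rw [h1]
    refine ⟨D.mul_mem ih.1 h2, ?_⟩
    rw [hadd _ ih.1 _ h2, ih.2, hconj _ _ hεD, hεφ, Finset.sum_range_succ]
    ring

/-- An eigenvalue that is not a root of unity gives large growth. -/
theorem growth_of_spread (hX : X.Finite) (D : Subgroup G) [D.Normal] {L L' : ℕ}
    (hgen : Gen X L D) {m : ℕ} (θ : D → (Fin m → ℤ)) (P : G →* Matrix (Fin m) (Fin m) ℤ)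
    (hsurj : Function.Surjective θ) (hadd : ∀ x y, θ (x * y) = θ x + θ y)
    (hconj : ∀ g d, θ (MulAut.conjNormal g d) = (P g).mulVec (θ d))
    (h : G) (hh : h ∈ ball X L') (z : ℂ)
    (hz : z ∈ ((P h).charpoly.map (Int.castRingHom ℂ)).roots) {K R : ℕ} (s : ℕ)
    (hs : ∀ e : ℕ → ℤ, (∀ i, |e i| ≤ 1) →
      ∑ i ∈ Finset.range K, (e i : ℂ) * z ^ (s * i) = 0 → ∀ i < K, e i = 0)
    (hR : K * (L + s * L') ≤ R) : 2 ^ K ≤ growth X R := by
  classical
  have hDn : D.Normal := inferInstance
  set A : Matrix (Fin m) (Fin m) ℂ := (P h).map (Int.castRingHom ℂ) with hA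
  -- the eigenfunctional
  have hz' : A.charpoly.IsRoot z := by
    rw [hA, Matrix.charpoly_map]
    exact Polynomial.isRoot_of_mem_roots hz
  obtain ⟨v, hv0, hv⟩ : ∃ v : Fin m → ℂ, v ≠ 0 ∧ Matrix.vecMul v A = z • v := by
    have h1 : (Matrix.scalar (Fin m) z - A).det = 0 := by
      rw [Polynomial.IsRoot, Matrix.eval_charpoly] at hz'
      exact hz'
    obtain ⟨v, hv0, hv⟩ := Matrix.exists_vecMul_eq_zero_iff.2 h1
    refine ⟨v, hv0, ?_⟩
    rw [Matrix.vecMul_sub, sub_eq_zero] at hv
    rw [← hv]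
    ext i
    simp [Matrix.vecMul_diagonal, mul_comm]
  set ψ : D → ℂ := fun d => v ⬝ᵥ (fun i => ((θ d i : ℤ) : ℂ)) with hψ
  have hψadd : ∀ x y, ψ (x * y) = ψ x + ψ y := by
    intro x y
    simp only [hψ, hadd, Pi.add_apply, Int.cast_add]
    rw [← dotProduct_add]
    rfl
  have hψconj : ∀ d, ψ (MulAut.conjNormal h d) = z * ψ d := by
    intro d
    have h1 : (fun i => (((θ (MulAut.conjNormal h d)) i : ℤ) : ℂ)) =
        A.mulVec (fun i => ((θ d i : ℤ) : ℂ)) := by
      rw [hconj]
      ext i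
      simp [Matrix.mulVec, dotProduct, hA]
    show v ⬝ᵥ _ = z * (v ⬝ᵥ _)
    rw [h1, Matrix.dotProduct_mulVec, hv, smul_dotProduct, smul_eq_mul]
  -- extend to `G`
  set φ : G → ℂ := fun g => if hg : g ∈ D then ψ ⟨g, hg⟩ else 0 with hφ
  have hφD : ∀ d : D, φ d = ψ d := by
    intro d
    simp [hφ]
  have hφadd : ∀ x ∈ D, ∀ y ∈ D, φ (x * y) = φ x + φ y := by
    intro x hx y hy
    have h1 := hψadd ⟨x, hx⟩ ⟨y, hy⟩
    have h2 := hφD (⟨x, hx⟩ * ⟨y, hy⟩)
    rw [h1, ← hφD, ← hφD] at h2
    exact h2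
  have hφconj1 : ∀ x ∈ D, φ (h * x * h⁻¹) = z * φ x := by
    intro x hx
    have h1 := hψconj ⟨x, hx⟩
    rw [← hφD, ← hφD] at h1
    simpa using h1
  have hφconj : ∀ n : ℕ, ∀ x ∈ D, φ (h ^ n * x * (h ^ n)⁻¹) = z ^ n * φ x := by
    intro n
    induction n with
    | zero => intro x _; simp
    | succ n ih =>
      intro x hx
      have h1 : h ^ (n + 1) * x * (h ^ (n + 1))⁻¹ = h * (h ^ n * x * (h ^ n)⁻¹) * h⁻¹ := by
        rw [pow_succ', mul_inv_rev]; simp only [mul_assoc]
      rw [h1, hφconj1 _ (hDn.conj_mem x hx _), ih x hx, pow_succ']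
      ring
  obtain ⟨a, ha, hφa⟩ : ∃ a ∈ (D : Set G) ∩ ball X L, φ a ≠ 0 := by
    by_contra hcon
    push Not at hcon
    have h1 : ∀ x ∈ D, φ x = 0 := by
      intro x hx
      have hx' : x ∈ Subgroup.closure ((D : Set G) ∩ ball X L) := hgen hx
      have hle : Subgroup.closure ((D : Set G) ∩ ball X L) ≤ D := by
        rw [Subgroup.closure_le]; exact Set.inter_subset_left
      have hone : φ 1 = 0 := by
        have := hφadd 1 D.one_mem 1 D.one_mem
        rw [mul_one] at this
        linear_combination -this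
      induction hx' using Subgroup.closure_induction with
      | mem y hy => exact hcon y hy
      | one => exact hone
      | mul x y hx' hy' ihx ihy =>
        rw [hφadd x (hle hx') y (hle hy'), ihx (hle hx'), ihy (hle hy'), add_zero]
      | inv x hx' ihx =>
        have h2 := hφadd x (hle hx') x⁻¹ (D.inv_mem (hle hx'))
        rw [mul_inv_cancel, hone, ihx (hle hx'), zero_add] at h2
        exact h2.symm
    apply hv0
    ext i
    obtain ⟨d, hd⟩ := hsurj (Pi.single i 1)
    have h2 := h1 d d.2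
    rw [hφD] at h2
    have h3 : ψ d = v i := by
      simp only [hψ, hd]
      rw [dotProduct, Finset.sum_eq_single i]
      · simp
      · intro j _ hj
        simp [hj]
      · simp
    rw [h3] at h2
    exact h2
  -- the words
  have hinj : Set.InjOn (fun S : Finset ℕ => word a (h ^ s) S K)
      ((Finset.range K).powerset : Set (Finset ℕ)) := by
    intro S hS S' hS' heq
    simp only [Finset.coe_powerset, Set.mem_preimage, Set.mem_powerset_iff,
      Finset.coe_subset] at hS hS'
    have h1 := (word_value D φ hφadd h z hφconj a ha.1 s S K).2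
    have h2 := (word_value D φ hφadd h z hφconj a ha.1 s S' K).2
    simp only at heq
    rw [heq, h2] at h1
    have h3 := hs (fun i => (if i ∈ S' then 1 else 0) - (if i ∈ S then 1 else 0)) (by
      intro i
      split_ifs <;> simp) (by
      apply mul_right_cancel₀ hφa
      rw [zero_mul, Finset.sum_mul]
      rw [← sub_eq_zero, ← Finset.sum_sub_distrib] at h1
      rw [← h1]
      refine Finset.sum_congr rfl fun i _ => ?_
      push_cast
      ring)
    ext i
    constructor
    · intro hi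
      have h4 := h3 i (Finset.mem_range.1 (hS hi))
      simp only [hi, if_true] at h4
      by_contra h5
      simp [h5] at h4
    · intro hi
      have h4 := h3 i (Finset.mem_range.1 (hS' hi))
      simp only [hi, if_true] at h4
      by_contra h5
      simp [h5] at h4
  set Q : Finset G := (Finset.range K).powerset.image fun S => word a (h ^ s) S K with hQ
  have hcard : Q.card = 2 ^ K := by
    rw [hQ, Finset.card_image_of_injOn hinj, Finset.card_powerset, Finset.card_range]
  rw [← hcard]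
  refine card_le_growth hX Q fun p hp => ?_
  obtain ⟨S, _, rfl⟩ := Finset.mem_image.1 hp
  exact ball_mono hR (word_mem_ball ha.2 hh S K)

/-- If all complex eigenvalues of an integral matrix are roots of unity, then it is
quasi-unipotent. -/
theorem nilpotent_of_roots {m : ℕ} (P : Matrix (Fin m) (Fin m) ℤ)
    (h' : ∀ z ∈ (P.charpoly.map (Int.castRingHom ℂ)).roots, ∃ n : ℕ, 1 ≤ n ∧ z ^ n = 1) :
    ∃ N : ℕ, 0 < N ∧ IsNilpotent (P ^ N - 1) := by
  classical
  set A : Matrix (Fin m) (Fin m) ℂ := P.map (Int.castRingHom ℂ) with hA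
  have hchar : A.charpoly = P.charpoly.map (Int.castRingHom ℂ) := by
    rw [hA, Matrix.charpoly_map]
  rw [← hchar] at h'
  choose! n hn1 hn using h'
  set N := ∏ z ∈ A.charpoly.roots.toFinset, n z with hN
  have hNpos : 0 < N := Finset.prod_pos (fun z hz => hn1 z (by simpa using hz))
  have hNz : ∀ z ∈ A.charpoly.roots, z ^ N = 1 := by
    intro z hz
    obtain ⟨c, hc⟩ := Finset.dvd_prod_of_mem n (Multiset.mem_toFinset.2 hz)
    rw [hN, hc, pow_mul, hn z hz, one_pow]
  refine ⟨N, hNpos, Multiset.card A.charpoly.roots, ?_⟩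
  have hsplit : A.charpoly = (A.charpoly.roots.map (fun a => Polynomial.X - Polynomial.C a)).prod := by
    have := Polynomial.Splits.eq_prod_roots_of_monic (IsAlgClosed.splits A.charpoly)
      A.charpoly_monic
    exact this
  have hdvd : A.charpoly ∣
      (Polynomial.X ^ N - 1 : Polynomial ℂ) ^ (Multiset.card A.charpoly.roots) := by
    rw [hsplit]
    have h1 : (Polynomial.X ^ N - 1 : Polynomial ℂ) ^ (Multiset.card A.charpoly.roots) =
        (A.charpoly.roots.map (fun _ => (Polynomial.X ^ N - 1 : Polynomial ℂ))).prod := by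
      rw [Multiset.map_const', Multiset.prod_replicate]
    have h2 : (Multiset.card ((A.charpoly.roots.map
        (fun a => Polynomial.X - Polynomial.C a)).prod).roots) =
        Multiset.card A.charpoly.roots := by rw [← hsplit]
    rw [h2, h1]
    apply Multiset.prod_dvd_prod_of_dvd
    intro a ha
    rw [Polynomial.dvd_iff_isRoot, Polynomial.IsRoot]
    simp [hNz a ha]
  have hdvd' : P.charpoly ∣
      (Polynomial.X ^ N - 1 : Polynomial ℤ) ^ (Multiset.card A.charpoly.roots) := by
    rw [← Polynomial.map_dvd_map (Int.castRingHom ℂ) (RingHom.injective_int _) P.charpoly_monic]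
    rw [← hchar]
    simpa using hdvd
  obtain ⟨q, hq⟩ := hdvd'
  have h3 := congrArg (Polynomial.aeval P) hq
  rw [map_mul, Matrix.aeval_self_charpoly, zero_mul] at h3
  simpa using h3

/-- Short elements act quasi-unipotently when the growth is small. -/
theorem qu_of_growth (hX : X.Finite) {K R L k q : ℕ} (hk : 1 ≤ k) (hq : K ^ 2 ≤ q ^ k)
    (hg : growth X R < 2 ^ K)
    (hR : K * (L + spreadC k * q ^ 6 * L) ≤ R) (D : Subgroup G) [D.Normal] (hgen : Gen X L D)
    {m : ℕ} (θ : D → (Fin m → ℤ)) (P : G →* Matrix (Fin m) (Fin m) ℤ)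
    (hsurj : Function.Surjective θ) (hadd : ∀ x y, θ (x * y) = θ x + θ y)
    (hconj : ∀ g d, θ (MulAut.conjNormal g d) = (P g).mulVec (θ d)) (h : G)
    (hh : h ∈ ball X L) : QU (ratRep P h) := by
  have hm : m < K := rank_lt hX hg (le_trans (Nat.mul_le_mul_left _ (Nat.le_add_right _ _)) hR)
    D hgen θ hsurj hadd
  have hunit : IsUnit (P h) := by
    rw [isUnit_iff_exists]
    exact ⟨P h⁻¹, by rw [← map_mul, mul_inv_cancel, map_one],
      by rw [← map_mul, inv_mul_cancel, map_one]⟩
  obtain ⟨N, hN, c, hc⟩ := nilpotent_of_roots (P h) (by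
    intro z hz
    by_contra hcon
    push Not at hcon
    have hroot : Polynomial.aeval z (P h).charpoly = 0 := by
      have h1 := Polynomial.isRoot_of_mem_roots hz
      rw [Polynomial.IsRoot, Polynomial.eval_map] at h1
      rw [Polynomial.aeval_def]
      exact h1
    have hzint : IsIntegral ℤ z := ⟨(P h).charpoly, (P h).charpoly_monic, hroot⟩
    have hz0 : z ≠ 0 := by
      rintro rfl
      have h1 : (P h).charpoly.coeff 0 = 0 := by
        rw [Polynomial.aeval_def, Polynomial.eval₂_at_zero] at hroot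
        simpa using hroot
      have h2 := Matrix.det_eq_sign_charpoly_coeff (P h)
      rw [h1, mul_zero] at h2
      have h3 := (Matrix.isUnit_iff_isUnit_det _).1 hunit
      rw [h2] at h3
      simp at h3
    have hdeg : (minpoly ℚ z).natDegree ≤ K := by
      have h1 : minpoly ℚ z ∣ (P h).charpoly.map (algebraMap ℤ ℚ) := by
        apply minpoly.dvd
        rw [Polynomial.aeval_map_algebraMap]
        exact hroot
      have h2 := Polynomial.natDegree_le_of_dvd h1
        (((P h).charpoly_monic.map (algebraMap ℤ ℚ)).ne_zero)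
      rw [(P h).charpoly_monic.natDegree_map, Matrix.charpoly_natDegree_eq_dim,
        Fintype.card_fin] at h2
      omega
    obtain ⟨s, hs, hs'⟩ := spread hzint hz0 (fun n hn => hcon n hn) hk hdeg hq
    refine absurd (growth_of_spread hX D hgen θ P hsurj hadd hconj h hh z hz
      (K := K) (R := R) s hs' ?_) (not_le.2 hg)
    refine le_trans (Nat.mul_le_mul_left _ ?_) hR
    have h2 : s * L ≤ spreadC k * q ^ 6 * L := Nat.mul_le_mul_right _ hs
    omega)
  refine ⟨N, hN, c, ?_⟩
  have h1 : ratRep P h = Matrix.toLinAlgEquiv' ((Int.castRingHom ℚ).mapMatrix (P h)) := rfl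
  rw [h1, ← map_pow, ← map_pow, ← map_one (Matrix.toLinAlgEquiv' (R := ℚ) (n := Fin m)),
    ← map_sub, ← map_one ((Int.castRingHom ℚ).mapMatrix (m := Fin m)), ← map_sub, ← map_pow,
    ← map_pow, hc, map_zero, map_zero]

/-- The hypothesis on quasi-unipotence of short elements. -/
def ShortQU (X : Set G) (L : ℕ) : Prop :=
  ∀ (D : Subgroup G) (_ : D.Normal), Gen X L D → ∀ (m : ℕ) (θ : D → (Fin m → ℤ))
    (P : G →* Matrix (Fin m) (Fin m) ℤ), Function.Surjective θ →
    (∀ x y, θ (x * y) = θ x + θ y) →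
    (∀ g d, θ (MulAut.conjNormal g d) = (P g).mulVec (θ d)) →
    ∀ h ∈ ball X L, QU (ratRep P h)

/-- One section of the derived series. -/
theorem exists_CD' (hX : X.Finite) {L : ℕ} (hqu : ShortQU X L) (r : ℕ)
    (hr : derivedSeries G r = ⊥)
    (hgen : ∀ i < r, Gen X L (derivedSeries G i)) (i : ℕ) (hi : i < r) :
    ∃ H : Subgroup G, H.FiniteIndex ∧ CD H (derivedSeries G i) (derivedSeries G (i + 1)) := by
  classical
  set D := derivedSeries G i with hD
  have hDn : D.Normal := inferInstance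
  have hfg : D.FG := by
    have hfin : ((D : Set G) ∩ ball X L).Finite := (ball_finite hX L).inter_of_right _
    refine ⟨hfin.toFinset, ?_⟩
    rw [Set.Finite.coe_toFinset]
    exact (hgen i hi).closure_eq.symm
  obtain ⟨m, θ, P, hsurj, hadd, hconj, hker, G₁, hG₁, hG₁'⟩ := exists_section D hfg
  obtain ⟨G₀, hG₀, c, F, hF0, hFc, hF⟩ := exists_unipotent_subgroup (k := ℚ) r hr
    (fun j => (derivedSeries G j : Set G) ∩ ball X L)
    (fun j _ => (ball_finite hX L).inter_of_right _)
    (fun j hj => (hgen j hj).closure_eq) _ (Fin m → ℚ) (ratRep P) le_rfl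
    (fun j hj s hs => hqu D hDn (hgen i hi) m θ P hsurj hadd hconj s hs.2)
  have hθ1 : θ 1 = 0 := by
    have := hadd 1 1
    rw [mul_one] at this
    simpa using this
  have hθinv : ∀ x, θ x⁻¹ = - θ x := by
    intro x
    have := hadd x x⁻¹
    rw [mul_inv_cancel, hθ1] at this
    exact (neg_eq_of_add_eq_zero_right this.symm).symm
  set ι : D → (Fin m → ℚ) := fun d i => ((θ d i : ℤ) : ℚ) with hι
  have hιadd : ∀ x y, ι (x * y) = ι x + ι y := by
    intro x y
    ext i
    simp [hι, hadd]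
  have hι1 : ι 1 = 0 := by
    ext i
    simp [hι, hθ1]
  have hιinv : ∀ x, ι x⁻¹ = - ι x := by
    intro x
    ext i
    simp [hι, hθinv]
  have hιconj : ∀ g d, ι (MulAut.conjNormal g d) = ratRep P g (ι d) := by
    intro g d
    ext i
    show (((θ (MulAut.conjNormal g d)) i : ℤ) : ℚ) = Matrix.toLin' _ _ i
    rw [hconj, Matrix.toLin'_apply]
    simp [Matrix.mulVec, dotProduct, hι]
  let M : Submodule ℚ (Fin m → ℚ) → Subgroup G := fun U =>
    Subgroup.map D.subtype
      { carrier := {d | ι d ∈ U}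
        mul_mem' := by
          intro a b ha hb
          show ι (a * b) ∈ U
          rw [hιadd]; exact U.add_mem ha hb
        one_mem' := by
          show ι 1 ∈ U
          rw [hι1]; exact U.zero_mem
        inv_mem' := by
          intro a ha
          show ι a⁻¹ ∈ U
          rw [hιinv]; exact U.neg_mem ha }
  have hM : ∀ U (d : D), (d : G) ∈ M U ↔ ι d ∈ U := by
    intro U d
    constructor
    · rintro ⟨d', hd', he⟩
      have : d' = d := Subtype.ext he
      rw [← this]
      exact hd'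
    · intro h
      exact ⟨d, h, rfl⟩
  have hMD : ∀ U, M U ≤ D := by
    rintro U _ ⟨d, _, rfl⟩
    exact d.2
  have hstep : ∀ (x g : G) (hx : x ∈ D), x * g * x⁻¹ * g⁻¹ ∈ D ∧
      ∀ h : x * g * x⁻¹ * g⁻¹ ∈ D, ι ⟨_, h⟩ = - (ratRep P g (ι ⟨x, hx⟩) - ι ⟨x, hx⟩) := by
    intro x g hx
    have h1 : x * g * x⁻¹ * g⁻¹ = x * (g * x⁻¹ * g⁻¹) := by group
    have h2 : g * x⁻¹ * g⁻¹ ∈ D := hDn.conj_mem _ (D.inv_mem hx) g
    refine ⟨h1 ▸ D.mul_mem hx h2, fun h => ?_⟩
    have h3 : (⟨x * g * x⁻¹ * g⁻¹, h⟩ : D) = ⟨x, hx⟩ * MulAut.conjNormal g (⟨x, hx⟩⁻¹) := by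
      apply Subtype.ext
      simp [MulAut.conjNormal_apply, mul_assoc]
    rw [h3, hιadd, hιconj, hιinv, map_neg]
    abel
  refine ⟨G₀ ⊓ G₁, inferInstance, c + 1,
    fun j => if j ≤ c then M (F j) else derivedSeries G (i + 1), ?_, ?_, ?_⟩
  · beta_reduce
    rw [if_pos (Nat.zero_le _), hF0]
    apply le_antisymm (hMD _)
    intro x hx
    exact (hM ⊤ ⟨x, hx⟩).2 trivial
  · simp
  · intro j x hx g hg
    beta_reduce at hx ⊢
    rcases lt_trichotomy j c with hj | hj | hj
    · rw [if_pos hj.le] at hx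
      rw [if_pos (by omega)]
      have hxD : x ∈ D := hMD _ hx
      obtain ⟨h1, h2⟩ := hstep x g hxD
      refine (hM (F (j + 1)) ⟨_, h1⟩).2 ?_
      rw [h2 h1]
      exact (F (j + 1)).neg_mem (hF j g hg.1 _ ((hM _ ⟨x, hxD⟩).1 hx))
    · subst hj
      rw [if_pos le_rfl, hFc] at hx
      rw [if_neg (by omega), derivedSeries_succ]
      have hxD : x ∈ D := hMD _ hx
      have h1 : ι ⟨x, hxD⟩ = 0 := (Submodule.mem_bot ℚ).1 ((hM _ ⟨x, hxD⟩).1 hx)
      have h2 : θ (⟨x, hxD⟩⁻¹) = 0 := by
        rw [hθinv]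
        ext l
        have := congrFun h1 l
        simp only [hι, Pi.zero_apply, Int.cast_eq_zero] at this
        simp [this]
      have h3 := hG₁' g hg.2 (⟨x, hxD⟩⁻¹) h2
      have h4 : x * g * x⁻¹ * g⁻¹ = x * (g * x⁻¹ * g⁻¹ * (x⁻¹)⁻¹) * x⁻¹ := by group
      rw [h4]
      exact (inferInstance : (⁅D, D⁆ : Subgroup G).Normal).conj_mem _ h3 x
    · rw [if_neg (by omega)] at hx
      rw [if_neg (by omega)]
      have h4 : x * g * x⁻¹ * g⁻¹ = x * (g * x⁻¹ * g⁻¹) := by group
      rw [h4]
      exact Subgroup.mul_mem _ hx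
        ((inferInstance : (derivedSeries G (i + 1)).Normal).conj_mem _ (Subgroup.inv_mem _ hx) g)

/-- The soluble part: small growth at one scale implies virtual nilpotence. -/
theorem exists_nilpotent' (hX : X.Finite) {L : ℕ} (hqu : ShortQU X L) (r : ℕ)
    (hr : derivedSeries G r = ⊥) (hgen : ∀ i < r, Gen X L (derivedSeries G i)) :
    VirtNilpotent G := by
  have key : ∀ i ≤ r, ∃ H : Subgroup G, H.FiniteIndex ∧ CD H ⊤ (derivedSeries G i) := by
    intro i
    induction i with
    | zero =>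
      intro _
      refine ⟨⊤, inferInstance, 0, fun _ => ⊤, rfl, ?_, fun _ _ _ _ _ => trivial⟩
      simp
    | succ i ih =>
      intro hi
      obtain ⟨H, hH, hcd⟩ := ih (by omega)
      obtain ⟨H', hH', hcd'⟩ := exists_CD' hX hqu r hr hgen i (by omega)
      exact ⟨H ⊓ H', inferInstance, (hcd.mono inf_le_left).trans (hcd'.mono inf_le_right)⟩
  obtain ⟨H, hH, hcd⟩ := key r le_rfl
  rw [hr] at hcd
  exact ⟨H, hH, hcd.isNilpotent⟩

end Pool.Agent.Helper68.Spread
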