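import Mathlib

/-!
The product `ht y = ∏_σ max(1, |σ y|)` over the embeddings of a number field, its behaviour under
powers, and the primes `p` for which `y ^ p` generates a smaller field than `y`.
-/

open Polynomial Module IntermediateField

namespace Pool.Agent.Helper68.Spread

variable {K : Type*} [Field K] [NumberField K]

/-- The exponential (non-normalised) height of an algebraic integer. -/
noncomputable def ht (y : K) : ℝ := ∏ σ : K →+* ℂ, max 1 ‖σ y‖

theorem one_le_prod_max {ι : Type*} (s : Finset ι) (f : ι → ℝ) : 1 ≤ ∏ i ∈ s, max 1 (f i) :=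
  Finset.prod_induction _ (fun x : ℝ => 1 ≤ x) (fun _ _ => one_le_mul_of_one_le_of_one_le) le_rfl
    (fun _ _ => le_max_left _ _)

theorem one_le_ht (y : K) : 1 ≤ ht y := one_le_prod_max _ _

theorem norm_le_ht (y : K) (φ : K →+* ℂ) : ‖φ y‖ ≤ ht y := by
  classical
  unfold ht
  rw [← Finset.mul_prod_erase Finset.univ _ (Finset.mem_univ φ)]
  calc ‖φ y‖ ≤ max 1 ‖φ y‖ := le_max_right _ _
    _ = max 1 ‖φ y‖ * 1 := (mul_one _).symm
    _ ≤ _ := by
      gcongr
      exact one_le_prod_max _ _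

theorem ht_pos (y : K) : 0 < ht y := lt_of_lt_of_le one_pos (one_le_ht y)

theorem max_one_pow (x : ℝ) (hx : 0 ≤ x) (n : ℕ) : max 1 (x ^ n) = (max 1 x) ^ n := by
  rcases le_total 1 x with h | h
  · rw [max_eq_right h, max_eq_right (one_le_pow₀ h)]
  · rw [max_eq_left h, max_eq_left (pow_le_one₀ hx h), one_pow]

theorem ht_pow (y : K) (n : ℕ) : ht (y ^ n) = ht y ^ n := by
  unfold ht
  rw [← Finset.prod_pow]
  refine Finset.prod_congr rfl fun σ _ => ?_
  rw [map_pow, norm_pow, max_one_pow _ (norm_nonneg _)]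

theorem one_le_prod_norm {η : K} (hη : IsIntegral ℤ η) (h0 : η ≠ 0) :
    1 ≤ ∏ σ : K →+* ℂ, ‖σ η‖ := by
  have h1 : (1 : ℝ) ≤ |(Algebra.norm ℚ η : ℚ)| := by
    have h2 := Algebra.isIntegral_norm ℚ hη
    obtain ⟨n, hn⟩ := IsIntegrallyClosed.isIntegral_iff.1 h2
    have h3 : Algebra.norm ℚ η ≠ 0 := (Algebra.norm_ne_zero_iff).2 h0
    rw [← hn] at h3 ⊢
    have h4 : n ≠ 0 := by
      rintro rfl
      simp at h3
    simp only [eq_intCast]
    exact_mod_cast Int.one_le_abs h4
  refine h1.trans (le_of_eq ?_)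
  have h2 := congr_arg (‖·‖) (Algebra.norm_eq_prod_embeddings ℚ ℂ η)
  simp only [norm_prod] at h2
  rw [Fintype.prod_equiv (RingHom.equivRatAlgHom K ℂ) (fun f => ‖f η‖)
      (fun φ => ‖φ η‖) fun _ => by simp [RingHom.equivRatAlgHom_apply]]
  rw [← h2]
  simp

/-- Kronecker's theorem in terms of `ht`. -/
theorem pow_eq_one_of_ht {y : K} (hy : IsIntegral ℤ y) (h0 : y ≠ 0) (h : ht y = 1) :
    ∃ n : ℕ, 0 < n ∧ y ^ n = 1 := by
  obtain ⟨n, hn, h⟩ := NumberField.Embeddings.pow_eq_one_of_norm_le_one K ℂ h0 hy (by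
    intro φ
    by_contra hcon
    push Not at hcon
    have h1 : ‖φ y‖ ≤ ht y := norm_le_ht y φ
    rw [h] at h1
    linarith)
  exact ⟨n, hn, h⟩

theorem injective_of_top {y : K} (h : ℚ⟮y⟯ = ⊤) : Function.Injective fun σ : K →+* ℂ => σ y := by
  have h1 := (Field.primitive_element_iff_algHom_eq_of_eval' ℚ ℂ
    (fun x => IsAlgClosed.splits _) y).1 h
  intro σ τ hστ
  have h2 : σ.toRatAlgHom = τ.toRatAlgHom := h1 hστ
  have h3 := congrArg (fun f : K →ₐ[ℚ] ℂ => (f : K →+* ℂ)) h2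
  simpa using h3

theorem exists_ne_of_ne_top {y : K} (h : ℚ⟮y⟯ ≠ ⊤) :
    ∃ σ τ : K →+* ℂ, σ ≠ τ ∧ σ y = τ y := by
  have h1 := (Field.primitive_element_iff_algHom_eq_of_eval' ℚ ℂ
    (fun x => IsAlgClosed.splits _) y).not.1 h
  unfold Function.Injective at h1
  push Not at h1
  obtain ⟨σ, τ, h2, h3⟩ := h1
  refine ⟨(σ : K →+* ℂ), (τ : K →+* ℂ), ?_, h2⟩
  intro h4
  apply h3
  ext x
  exact RingHom.congr_fun h4 x

/-- The minimal polynomial of a generator splits as the product over all embeddings. -/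
theorem minpoly_map_eq_prod {y : K} (hy : IsIntegral ℤ y) (h : ℚ⟮y⟯ = ⊤) :
    (minpoly ℤ y).map (Int.castRingHom ℂ) = ∏ σ : K →+* ℂ, (X - C (σ y)) := by
  have hmon : ((minpoly ℤ y).map (Int.castRingHom ℂ)).Monic := (minpoly.monic hy).map _
  have hmon' : (∏ σ : K →+* ℂ, (X - C (σ y))).Monic :=
    monic_prod_of_monic _ _ fun σ _ => monic_X_sub_C _
  refine Polynomial.eq_of_monic_of_dvd_of_natDegree_le hmon' hmon ?_ ?_
  · refine Finset.prod_dvd_of_coprime ?_ ?_
    · intro σ _ τ _ hne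
      exact pairwise_coprime_X_sub_C (injective_of_top h) hne
    · intro σ _
      rw [dvd_iff_isRoot, IsRoot, eval_map]
      have h1 : eval₂ (Int.castRingHom ℂ) (σ y) (minpoly ℤ y) = σ (aeval y (minpoly ℤ y)) := by
        rw [aeval_def, hom_eval₂]
        congr 1
        exact RingHom.ext_int _ _
      rw [h1, minpoly.aeval, map_zero]
  · rw [natDegree_prod_of_monic _ _ fun σ _ => monic_X_sub_C _]
    simp only [natDegree_X_sub_C, Finset.sum_const, Finset.card_univ, smul_eq_mul, mul_one]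
    rw [(minpoly.monic hy).natDegree_map, NumberField.Embeddings.card K ℂ]
    have h2 := (Field.primitive_element_iff_minpoly_natDegree_eq ℚ y).1 h
    rw [← h2, minpoly.isIntegrallyClosed_eq_field_fractions' ℚ hy,
      (minpoly.monic hy).natDegree_map]

theorem mahlerMeasure_minpoly {y : K} (hy : IsIntegral ℤ y) (h : ℚ⟮y⟯ = ⊤) :
    ((minpoly ℤ y).map (Int.castRingHom ℂ)).mahlerMeasure = ht y := by
  rw [minpoly_map_eq_prod hy h]
  unfold ht
  have h1 : ∀ s : Finset (K →+* ℂ), (∏ σ ∈ s, (X - C (σ y))).mahlerMeasure =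
      ∏ σ ∈ s, max 1 ‖σ y‖ := by
    classical
    intro s
    induction s using Finset.induction_on with
    | empty => simp
    | insert a s ha ih =>
      rw [Finset.prod_insert ha, Finset.prod_insert ha, mahlerMeasure_mul, ih,
        mahlerMeasure_X_sub_C]
  exact h1 _

/-- The number of primes `p` such that `y ^ p` generates a proper subfield is at most
`log₂ [K : ℚ]`. -/
theorem two_pow_card_le {y : K} (h0 : y ≠ 0) (h : ℚ⟮y⟯ = ⊤) (P : Finset ℕ)
    (hP : ∀ p ∈ P, p.Prime ∧ ℚ⟮y ^ p⟯ ≠ ⊤) : 2 ^ P.card ≤ finrank ℚ K := by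
  classical
  have key : ∀ P : Finset ℕ, (∀ p ∈ P, p.Prime ∧ ℚ⟮y ^ p⟯ ≠ ⊤) →
      2 ^ P.card * finrank ℚ ℚ⟮y ^ (∏ p ∈ P, p)⟯ ≤ finrank ℚ K := by
    intro P
    induction P using Finset.induction_on with
    | empty =>
      intro _
      have hb : ℚ⟮y ^ (∏ p ∈ (∅ : Finset ℕ), p)⟯ = ⊤ := by simpa using h
      rw [hb, IntermediateField.finrank_top']
      simp
    | insert p P hp ih =>
      intro hP
      have ih' := ih fun q hq => hP q (Finset.mem_insert_of_mem hq)
      obtain ⟨hpp, hbad⟩ := hP p (Finset.mem_insert_self _ _)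
      set n := ∏ q ∈ P, q with hn
      have hcop : Nat.Coprime p n := by
        rw [hn]
        refine Nat.Coprime.prod_right fun q hq => ?_
        refine (Nat.coprime_primes hpp (hP q (Finset.mem_insert_of_mem hq)).1).2 ?_
        rintro rfl
        exact hp hq
      rw [Finset.prod_insert hp, Finset.card_insert_of_notMem hp, ← hn]
      have hle : ℚ⟮y ^ (p * n)⟯ ≤ ℚ⟮y ^ n⟯ := by
        rw [IntermediateField.adjoin_simple_le_iff]
        rw [mul_comm, pow_mul]
        exact pow_mem (IntermediateField.mem_adjoin_simple_self ℚ _) p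
      have hne : ℚ⟮y ^ (p * n)⟯ ≠ ℚ⟮y ^ n⟯ := by
        intro heq
        obtain ⟨σ, τ, hστ, hy⟩ := exists_ne_of_ne_top hbad
        apply hστ
        apply injective_of_top h
        show σ y = τ y
        have h1 : ∀ x ∈ ℚ⟮y ^ (p * n)⟯, σ x = τ x := by
          intro x hx
          have h2 : ℚ⟮y ^ (p * n)⟯ ≤ Subfield.toIntermediateField (RingHom.eqLocusField σ τ)
              (fun q => by
                show σ (algebraMap ℚ K q) = τ (algebraMap ℚ K q)
                simp) := by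
            rw [IntermediateField.adjoin_simple_le_iff]
            show σ (y ^ (p * n)) = τ (y ^ (p * n))
            rw [pow_mul, map_pow, hy, ← map_pow]
          exact h2 hx
        have h2 : σ (y ^ n) = τ (y ^ n) := by
          apply h1
          rw [heq]
          exact IntermediateField.mem_adjoin_simple_self ℚ _
        have hτ : τ y ≠ 0 := (map_ne_zero τ).2 h0
        have h3 : (σ y / τ y) ^ n = 1 := by
          rw [div_pow, ← map_pow, ← map_pow, h2, div_self]
          rw [map_pow]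
          exact pow_ne_zero _ hτ
        have h4 : (σ y / τ y) ^ p = 1 := by
          rw [div_pow, ← map_pow, ← map_pow, hy, div_self]
          rw [map_pow]
          exact pow_ne_zero _ hτ
        have h5 : orderOf (σ y / τ y) ∣ Nat.gcd p n :=
          Nat.dvd_gcd (orderOf_dvd_of_pow_eq_one h4) (orderOf_dvd_of_pow_eq_one h3)
        rw [hcop] at h5
        have h6 : orderOf (σ y / τ y) = 1 := Nat.dvd_one.1 h5
        rw [orderOf_eq_one_iff] at h6
        exact (div_eq_one_iff_eq hτ).1 h6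
      have hdvd := IntermediateField.finrank_dvd_of_le_right hle
      have hfne : finrank ℚ ℚ⟮y ^ (p * n)⟯ ≠ finrank ℚ ℚ⟮y ^ n⟯ := fun h' =>
        hne (IntermediateField.eq_of_le_of_finrank_eq hle h')
      obtain ⟨c, hc⟩ := hdvd
      have hpos : 0 < finrank ℚ ℚ⟮y ^ n⟯ := Module.finrank_pos
      have hc2 : 2 ≤ c := by
        rcases c with _ | _ | c
        · omega
        · exact absurd (by rw [hc]; ring) hfne
        · omega
      calc 2 ^ (P.card + 1) * finrank ℚ ℚ⟮y ^ (p * n)⟯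
          = 2 ^ P.card * (finrank ℚ ℚ⟮y ^ (p * n)⟯ * 2) := by ring
        _ ≤ 2 ^ P.card * (finrank ℚ ℚ⟮y ^ (p * n)⟯ * c) := by gcongr
        _ = 2 ^ P.card * finrank ℚ ℚ⟮y ^ n⟯ := by rw [hc]
        _ ≤ finrank ℚ K := ih'
  have h1 := key P hP
  have h2 : 0 < finrank ℚ ℚ⟮y ^ (∏ p ∈ P, p)⟯ := Module.finrank_pos
  calc 2 ^ P.card = 2 ^ P.card * 1 := (mul_one _).symm
    _ ≤ 2 ^ P.card * finrank ℚ ℚ⟮y ^ (∏ p ∈ P, p)⟯ := Nat.mul_le_mul_left _ h2
    _ ≤ finrank ℚ K := h1

end Pool.Agent.Helper68.Spread
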