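import Pool.Agent.Helper68.Spread.Dob

/-!
A weak form of Dobrowolski's theorem, and the spreading lemma.
-/

open Polynomial Module IntermediateField

namespace Pool.Agent.Helper68.Spread

/-- The primes in `(Q, Q²]`. -/
def primesIn (Q : ℕ) : Finset ℕ := (Finset.Ioc Q (Q ^ 2)).filter Nat.Prime

theorem le_card_primesIn {Q : ℕ} (hQ : 256 ≤ Q) : Q ≤ (primesIn Q).card := by
  classical
  have hQr : (256 : ℝ) ≤ Q := by exact_mod_cast hQ
  have hQpos : (0 : ℝ) < Q := by linarith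
  -- `π (Q²) ≥ 2 Q`
  have h1 : (2 * Q : ℝ) ≤ (Nat.primeCounting (Q ^ 2) : ℝ) := by
    refine le_trans ?_ (Chebyshev.pi_ge (Q ^ 2))
    set t := √(Q : ℝ) with ht
    have ht2 : t ^ 2 = Q := Real.sq_sqrt hQpos.le
    have ht0 : 0 ≤ t := Real.sqrt_nonneg _
    have ht16 : 16 ≤ t := by
      rw [ht]
      apply Real.le_sqrt_of_sq_le
      linarith
    have hlog : Real.log Q ≤ 2 * t := by
      have h2 : Real.log t ≤ t - 1 := Real.log_le_sub_one_of_pos (by linarith)
      have h3 : Real.log Q = 2 * Real.log t := by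
        rw [← ht2, Real.log_pow]
        norm_num
      rw [h3]
      linarith
    have hlog0 : 0 < Real.log Q := Real.log_pos (by linarith)
    have hlog2 : Real.log ((Q ^ 2 : ℕ) : ℝ) = 2 * Real.log Q := by
      push_cast
      rw [Real.log_pow]
      norm_num
    have hlog3 : Real.log (((Q ^ 2 : ℕ) : ℝ) + 1) ≤ 2 * Q := by
      have h4 : (((Q ^ 2 : ℕ) : ℝ) + 1) ≤ (Q + 1) ^ 2 := by
        push_cast
        nlinarith
      have h5 : Real.log (((Q ^ 2 : ℕ) : ℝ) + 1) ≤ Real.log ((Q + 1 : ℝ) ^ 2) :=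
        Real.log_le_log (by positivity) h4
      rw [Real.log_pow] at h5
      have h6 : Real.log (Q + 1 : ℝ) ≤ Q := by
        have := Real.log_le_sub_one_of_pos (show (0 : ℝ) < Q + 1 by linarith)
        linarith
      push_cast at h5 ⊢
      linarith
    have hl2 : (0.69 : ℝ) ≤ Real.log 2 := by
      have := Real.log_two_gt_d9
      linarith
    rw [hlog2, le_div_iff₀ (by positivity)]
    push_cast at hlog3 ⊢
    have h7 : 2 * (Q : ℝ) * (2 * Real.log Q) ≤ 8 * Q * t := by nlinarith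
    have h8 : (Q : ℝ) ^ 2 * 0.69 ≤ (Q : ℝ) ^ 2 * Real.log 2 := by gcongr
    have h9 : 8 * (Q : ℝ) * t + 2 * Q ≤ (Q : ℝ) ^ 2 * 0.69 := by
      have h10 : 8 * t + 2 ≤ Q * 0.69 := by
        rw [← ht2]
        nlinarith
      nlinarith
    linarith
  have h2 : 2 * Q ≤ Nat.primeCounting (Q ^ 2) := by exact_mod_cast h1
  have h3 : Nat.primeCounting (Q ^ 2) ≤ Q + (primesIn Q).card := by
    rw [Nat.primeCounting, Nat.primeCounting', Nat.count_eq_card_filter_range]
    have hsub : (Finset.range (Q ^ 2 + 1)).filter Nat.Prime ⊆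
        (Finset.Ioc 0 Q) ∪ primesIn Q := by
      intro p hp
      simp only [Finset.mem_filter, Finset.mem_range] at hp
      simp only [primesIn, Finset.mem_union, Finset.mem_Ioc, Finset.mem_filter]
      have := hp.2.pos
      by_cases h : p ≤ Q
      · left; exact ⟨this, h⟩
      · right; exact ⟨⟨by omega, by omega⟩, hp.2⟩
    refine (Finset.card_le_card hsub).trans ((Finset.card_union_le _ _).trans ?_)
    simp
  omega

section

variable {K : Type*} [Field K] [NumberField K]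

/-- The good primes in `(Q, Q²]`. -/
theorem exists_good {y : K} (h0 : y ≠ 0) (hgen : ℚ⟮y⟯ = ⊤) {Q s : ℕ} (hQ : 256 ≤ Q)
    (hs : s + Nat.log 2 (finrank ℚ K) ≤ Q) :
    ∃ T : Finset ℕ, T.card = s ∧ ∀ p ∈ T, p.Prime ∧ Q < p ∧ p ≤ Q ^ 2 ∧ ℚ⟮y ^ p⟯ = ⊤ := by
  classical
  set bad := (primesIn Q).filter fun p => ℚ⟮y ^ p⟯ ≠ ⊤ with hbad
  have h1 : 2 ^ bad.card ≤ finrank ℚ K := by
    refine two_pow_card_le h0 hgen bad ?_
    intro p hp
    simp only [hbad, primesIn, Finset.mem_filter] at hp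
    exact ⟨hp.1.2, hp.2⟩
  have h2 : bad.card ≤ Nat.log 2 (finrank ℚ K) := Nat.le_log_of_pow_le (by norm_num) h1
  have h3 : s ≤ ((primesIn Q) \ bad).card := by
    have h4 := Finset.le_card_sdiff bad (primesIn Q)
    have h5 := le_card_primesIn hQ
    omega
  obtain ⟨T, hT, hcard⟩ := Finset.exists_subset_card_eq h3
  refine ⟨T, hcard, fun p hp => ?_⟩
  have h6 := hT hp
  simp only [hbad, primesIn, Finset.mem_sdiff, Finset.mem_filter, Finset.mem_Ioc, not_and,
    not_not] at h6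
  exact ⟨h6.1.2, h6.1.1.1, h6.1.1.2, h6.2 h6.1⟩

theorem two_mul_log_le {D q k : ℕ} (hD : 1 ≤ D) (h : D ^ 2 ≤ q ^ k) : Nat.log 2 D ≤ k * q := by
  have h1 : D < 2 ^ (k * q + 1) := by
    calc D ≤ D ^ 2 := Nat.le_self_pow (by norm_num) D
      _ ≤ q ^ k := h
      _ ≤ (2 ^ q) ^ k := Nat.pow_le_pow_left Nat.lt_two_pow_self.le k
      _ = 2 ^ (k * q) := by rw [← pow_mul, mul_comm]
      _ < 2 ^ (k * q + 1) := Nat.pow_lt_pow_right (by norm_num) (by omega)
  have := Nat.log_lt_of_lt_pow (by omega) h1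
  omega

/-- **Weak Dobrowolski theorem.** -/
theorem weak_dobrowolski {y : K} (hy : IsIntegral ℤ y) (h0 : y ≠ 0)
    (hru : ∀ n : ℕ, 0 < n → y ^ n ≠ 1) (hgen : ℚ⟮y⟯ = ⊤) {k : ℕ} (hk : 1 ≤ k) {q : ℕ}
    (hq : (finrank ℚ K) ^ 2 ≤ q ^ k) :
    2 ≤ ht y ^ (8 * k ^ 2 * ((1025 * k ^ 4 + 9 * k ^ 2 + 256) * q) ^ 2) := by
  classical
  by_contra hcon
  push Not at hcon
  set D := finrank ℚ K with hD
  have hDpos : 0 < D := Module.finrank_pos
  have hq1 : 1 ≤ q := by
    rcases Nat.eq_zero_or_pos q with h | h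
    · subst h
      rw [zero_pow (by omega)] at hq
      have : 0 < D ^ 2 := by positivity
      omega
    · exact h
  set c := 1025 * k ^ 4 + 9 * k ^ 2 + 256 with hc
  set Q := c * q with hQ
  have hk2 : 1 ≤ k ^ 2 := Nat.one_le_pow _ _ hk
  have hk24 : k ^ 2 ≤ k ^ 4 := Nat.pow_le_pow_right hk (by norm_num)
  have hkk : k ≤ k ^ 2 := Nat.le_self_pow (by norm_num) k
  have hcQ : c ≤ Q := Nat.le_mul_of_pos_right c hq1
  obtain ⟨T, hTcard, hT⟩ := exists_good h0 hgen (Q := Q) (s := 8 * k ^ 2)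
    (by omega) (by
      have h1 := two_mul_log_le hDpos hq
      rw [← hD]
      have h2 : 8 * k ^ 2 + k * q ≤ Q := by
        rw [hQ, hc]
        nlinarith
      omega)
  set N := 8 * k ^ 2 * D with hN
  have hNpos : 0 < N := by positivity
  have hht1 := one_le_ht y
  -- powers of the height
  have hpow : ∀ p, p ≤ Q ^ 2 → ht y ^ (p * N) ≤ 2 ^ D := by
    intro p hp
    calc ht y ^ (p * N) = (ht y ^ (8 * k ^ 2 * p)) ^ D := by
          rw [← pow_mul]
          congr 1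
          rw [hN]
          ring
      _ ≤ (ht y ^ (8 * k ^ 2 * Q ^ 2)) ^ D := by gcongr
      _ ≤ 2 ^ D := by gcongr
  have hpow1 : ht y ^ (8 * k ^ 2 * finrank ℚ K) ≤ 2 ^ finrank ℚ K := by
    have h1 := hpow 1 (by nlinarith)
    rw [one_mul] at h1
    exact h1
  obtain ⟨F, hF0, hFdeg, hFc, hFdvd⟩ := exists_aux hy hgen hk hpow1
  rw [← hD, ← hN] at hFdeg hFc
  -- all `F (y ^ p)` vanish
  have hvan : ∀ p ∈ T, aeval (y ^ p) F = 0 := by
    intro p hp
    obtain ⟨hpp, hp1, hp2, _⟩ := hT p hp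
    refine aeval_pow_eq_zero hy (minpoly.aeval ℤ y) hFdvd hFdeg hFc hpp ?_
    rw [← hD]
    have h1 : (N * (8 * (N : ℕ)) * 2 : ℝ) < (p : ℝ) ^ k := by
      have h2 : N * (8 * N) * 2 < p ^ k := by
        calc N * (8 * N) * 2 = 1024 * k ^ 4 * D ^ 2 := by rw [hN]; ring
          _ ≤ 1024 * k ^ 4 * q ^ k := by gcongr
          _ < c * q ^ k := by
            have : 0 < q ^ k := by positivity
            apply Nat.mul_lt_mul_of_pos_right _ this
            rw [hc]; nlinarith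
          _ ≤ c ^ k * q ^ k := by
            gcongr
            exact Nat.le_self_pow (by omega) c
          _ = Q ^ k := (mul_pow _ _ _).symm
          _ ≤ p ^ k := Nat.pow_le_pow_left hp1.le k
      exact_mod_cast h2
    calc (N * (8 * (N : ℕ)) : ℝ) ^ D * ht y ^ (p * N)
        ≤ (N * (8 * (N : ℕ)) : ℝ) ^ D * 2 ^ D := by gcongr; exact hpow p hp2
      _ = (N * (8 * (N : ℕ)) * 2 : ℝ) ^ D := (mul_pow _ _ _).symm
      _ < ((p : ℝ) ^ k) ^ D := pow_lt_pow_left₀ h1 (by positivity) hDpos.ne'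
      _ = (p : ℝ) ^ (k * D) := by rw [← pow_mul]
  -- the minimal polynomials of the `y ^ p` are distinct
  have hhtne : ht y ≠ 1 := by
    intro h
    obtain ⟨n, hn, hn'⟩ := pow_eq_one_of_ht hy h0 h
    exact hru n hn hn'
  have hhtgt : 1 < ht y := lt_of_le_of_ne hht1 (Ne.symm hhtne)
  have hinj : ∀ p ∈ T, ∀ p' ∈ T, minpoly ℤ (y ^ p) = minpoly ℤ (y ^ p') → p = p' := by
    intro p hp p' hp' h
    have h1 := mahlerMeasure_minpoly (hy.pow p) (hT p hp).2.2.2
    have h2 := mahlerMeasure_minpoly (hy.pow p') (hT p' hp').2.2.2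
    rw [h, h2, ht_pow, ht_pow] at h1
    exact (pow_right_injective₀ (by linarith) hhtne h1).symm
  -- counting degrees
  have hirr : ∀ p, Irreducible (minpoly ℚ (y ^ p)) := fun p =>
    minpoly.irreducible ((hy.pow p).tower_top)
  have hmonQ : ∀ p, (minpoly ℚ (y ^ p)).Monic := fun p => minpoly.monic ((hy.pow p).tower_top)
  have hdvd : (∏ p ∈ T, minpoly ℚ (y ^ p)) ∣ F.map (Int.castRingHom ℚ) := by
    refine Finset.prod_dvd_of_coprime ?_ ?_
    · intro p hp p' hp' hne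
      rcases (EuclideanDomain.dvd_or_coprime _ (minpoly ℚ (y ^ p')) (hirr p)).symm with h | h
      · exact h
      · exfalso
        apply hne
        apply hinj p hp p' hp'
        have h1 : minpoly ℚ (y ^ p) = minpoly ℚ (y ^ p') :=
          eq_of_monic_of_associated (hmonQ p) (hmonQ p')
            ((hirr p).associated_of_dvd (hirr p') h)
        rw [minpoly.isIntegrallyClosed_eq_field_fractions' ℚ (hy.pow p),
          minpoly.isIntegrallyClosed_eq_field_fractions' ℚ (hy.pow p')] at h1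
        exact map_injective _ (algebraMap ℤ ℚ).injective_int h1
    · intro p hp
      apply minpoly.dvd
      have h1 := hvan p hp
      have h2 : aeval (y ^ p) (F.map (Int.castRingHom ℚ)) = aeval (y ^ p) F :=
        aeval_map_algebraMap ℚ (y ^ p) F
      rw [h2, h1]
  have hFQ : F.map (Int.castRingHom ℚ) ≠ 0 := by
    rw [Ne, Polynomial.map_eq_zero_iff (RingHom.injective_int _)]
    exact hF0
  have h1 := natDegree_le_of_dvd hdvd hFQ
  rw [natDegree_prod_of_monic _ _ fun p _ => hmonQ p] at h1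
  have h2 : ∑ p ∈ T, (minpoly ℚ (y ^ p)).natDegree = ∑ _p ∈ T, D := by
    refine Finset.sum_congr rfl fun p hp => ?_
    exact (Field.primitive_element_iff_minpoly_natDegree_eq ℚ (y ^ p)).1 (hT p hp).2.2.2
  rw [h2, Finset.sum_const, hTcard, smul_eq_mul, natDegree_map_eq_of_injective
    (RingHom.injective_int _)] at h1
  omega

/-- The constant of the weak Dobrowolski theorem. -/
def dobC (k : ℕ) : ℕ := 8 * k ^ 2 * (1025 * k ^ 4 + 9 * k ^ 2 + 256) ^ 2

theorem weak_dobrowolski' {y : K} (hy : IsIntegral ℤ y) (h0 : y ≠ 0)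
    (hru : ∀ n : ℕ, 0 < n → y ^ n ≠ 1) (hgen : ℚ⟮y⟯ = ⊤) {k : ℕ} (hk : 1 ≤ k) {q : ℕ}
    (hq : (finrank ℚ K) ^ 2 ≤ q ^ k) : 2 ≤ ht y ^ (dobC k * q ^ 2) := by
  have h := weak_dobrowolski hy h0 hru hgen hk hq
  have h1 : 8 * k ^ 2 * ((1025 * k ^ 4 + 9 * k ^ 2 + 256) * q) ^ 2 = dobC k * q ^ 2 := by
    rw [dobC]; ring
  rwa [h1] at h

/-- The constant of the spreading lemma. -/
def spreadC (k : ℕ) : ℕ := (dobC k * (k + 1) + k + 257) ^ 2

theorem spread_aux {y : K} (hy : IsIntegral ℤ y) (h0 : y ≠ 0)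
    (hru : ∀ n : ℕ, 0 < n → y ^ n ≠ 1) (hgen : ℚ⟮y⟯ = ⊤) {k : ℕ} (hk : 1 ≤ k) {q T : ℕ}
    (hT : finrank ℚ K ≤ T) (hq : T ^ 2 ≤ q ^ k) :
    ∃ m : ℕ, m ≤ spreadC k * q ^ 6 ∧ ∀ e : ℕ → ℤ, (∀ i, |e i| ≤ 1) →
      ∑ i ∈ Finset.range T, (e i : K) * y ^ (m * i) = 0 → ∀ i < T, e i = 0 := by
  classical
  have hDpos : 0 < finrank ℚ K := Module.finrank_pos
  have hTpos : 1 ≤ T := by omega
  have hq1 : 1 ≤ q := by
    rcases Nat.eq_zero_or_pos q with h | h
    · subst h
      rw [zero_pow (by omega)] at hq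
      have : 0 < T ^ 2 := by positivity
      omega
    · exact h
  have hD2 : (finrank ℚ K) ^ 2 ≤ q ^ k := (Nat.pow_le_pow_left hT 2).trans hq
  set c := dobC k * (k + 1) + k + 257 with hc
  set Q := c * q ^ 3 with hQ
  have hq3 : 1 ≤ q ^ 3 := Nat.one_le_pow _ _ hq1
  have hcQ : c ≤ Q := Nat.le_mul_of_pos_right c hq3
  have hqq3 : q ≤ q ^ 3 := Nat.le_self_pow (by norm_num) q
  obtain ⟨S, hS, hSp⟩ := exists_good h0 hgen (Q := Q) (s := 1) (by omega) (by
    have h1 := two_mul_log_le hDpos hD2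
    have h2 : 1 + k * q ≤ Q := by
      calc 1 + k * q ≤ 1 * q ^ 3 + k * q ^ 3 := by gcongr; omega
        _ = (1 + k) * q ^ 3 := by ring
        _ ≤ c * q ^ 3 := by gcongr; omega
    omega)
  obtain ⟨m, rfl⟩ := Finset.card_eq_one.1 hS
  obtain ⟨hmp, hm1, hm2, hm3⟩ := hSp m (Finset.mem_singleton_self _)
  refine ⟨m, ?_, ?_⟩
  · calc m ≤ Q ^ 2 := hm2
      _ = spreadC k * q ^ 6 := by rw [hQ, hc, spreadC]; ring
  have hht1 := one_le_ht y
  -- the height of `y ^ m` is large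
  have hbig : (T : ℝ) < ht (y ^ m) := by
    have h1 := weak_dobrowolski' hy h0 hru hgen hk hD2
    have h2 : T < 2 ^ (k * q + 1) := by
      calc T ≤ T ^ 2 := Nat.le_self_pow (by norm_num) T
        _ ≤ q ^ k := hq
        _ ≤ (2 ^ q) ^ k := Nat.pow_le_pow_left Nat.lt_two_pow_self.le k
        _ = 2 ^ (k * q) := by rw [← pow_mul, mul_comm]
        _ < 2 ^ (k * q + 1) := Nat.pow_lt_pow_right (by norm_num) (by omega)
    have h3 : dobC k * q ^ 2 * (k * q + 1) ≤ m := by
      calc dobC k * q ^ 2 * (k * q + 1) ≤ dobC k * q ^ 2 * ((k + 1) * q) := by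
            gcongr
            nlinarith
        _ = dobC k * (k + 1) * q ^ 3 := by ring
        _ ≤ c * q ^ 3 := by gcongr; omega
        _ ≤ m := hm1.le
    calc (T : ℝ) < 2 ^ (k * q + 1) := by exact_mod_cast h2
      _ ≤ (ht y ^ (dobC k * q ^ 2)) ^ (k * q + 1) := by gcongr
      _ = ht y ^ (dobC k * q ^ 2 * (k * q + 1)) := by rw [← pow_mul]
      _ ≤ ht y ^ m := pow_le_pow_right₀ hht1 h3
      _ = ht (y ^ m) := (ht_pow y m).symm
  intro e he hsum
  by_contra hcon
  push Not at hcon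
  obtain ⟨i₀, hi₀, hei₀⟩ := hcon
  set P : ℤ[X] := polyOf (N := T) fun i => e i with hP
  have hP0 : P ≠ 0 := by
    intro h
    apply hei₀
    have h1 := congrArg (fun P : ℤ[X] => P.coeff i₀) h
    simp only [hP, coeff_polyOf, hi₀, dif_pos, coeff_zero] at h1
    exact h1
  have hPe : aeval (y ^ m) P = 0 := by
    rw [hP, polyOf, map_sum, ← hsum, Finset.sum_range]
    refine Finset.sum_congr rfl fun i _ => ?_
    rw [aeval_monomial, pow_mul]
    simp
  have hdvd : minpoly ℤ (y ^ m) ∣ P := minpoly.isIntegrallyClosed_dvd (hy.pow m) hPe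
  obtain ⟨G, hG⟩ := hdvd
  have hG0 : G ≠ 0 := by
    rintro rfl
    rw [mul_zero] at hG
    exact hP0 hG
  have h1 : ht (y ^ m) ≤ (P.map (Int.castRingHom ℂ)).mahlerMeasure := by
    rw [hG, Polynomial.map_mul, mahlerMeasure_mul, mahlerMeasure_minpoly (hy.pow m) hm3]
    have h2 := one_le_mahlerMeasure_of_ne_zero hG0
    calc ht (y ^ m) = ht (y ^ m) * 1 := (mul_one _).symm
      _ ≤ _ := by
        gcongr
        exact (ht_pos _).le
  have h2 : (P.map (Int.castRingHom ℂ)).mahlerMeasure ≤ T := by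
    refine (mahlerMeasure_le_sum_norm_coeff _).trans ?_
    rw [Polynomial.sum_over_range' _ (by simp) T ?_]
    · calc ∑ a ∈ Finset.range T, ‖(P.map (Int.castRingHom ℂ)).coeff a‖
          ≤ ∑ _a ∈ Finset.range T, (1 : ℝ) := by
            refine Finset.sum_le_sum fun a ha => ?_
            rw [coeff_map, hP, coeff_polyOf, dif_pos (Finset.mem_range.1 ha)]
            simp only [eq_intCast, Complex.norm_intCast]
            exact_mod_cast he a
        _ = T := by simp
    · exact lt_of_le_of_lt natDegree_map_le (polyOf_natDegree_lt hTpos _)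
  linarith

end

/-- **Spreading lemma.** If `z` is a non-zero algebraic integer of degree at most `T` that is not a
root of unity, then for a suitable `m`, which is small compared to any given power of `T`, the
numbers `z ^ (m i)` with `i < T` satisfy no non-trivial relation with coefficients `-1, 0, 1`. -/
theorem spread {z : ℂ} (hz : IsIntegral ℤ z) (h0 : z ≠ 0) (hru : ∀ n : ℕ, 0 < n → z ^ n ≠ 1)
    {k : ℕ} (hk : 1 ≤ k) {q T : ℕ} (hT : (minpoly ℚ z).natDegree ≤ T) (hq : T ^ 2 ≤ q ^ k) :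
    ∃ m : ℕ, m ≤ spreadC k * q ^ 6 ∧ ∀ e : ℕ → ℤ, (∀ i, |e i| ≤ 1) →
      ∑ i ∈ Finset.range T, (e i : ℂ) * z ^ (m * i) = 0 → ∀ i < T, e i = 0 := by
  have hzQ : IsIntegral ℚ z := hz.tower_top
  let K := ℚ⟮z⟯
  have hfd : FiniteDimensional ℚ K := adjoin.finiteDimensional hzQ
  have hnf : NumberField K :=
    { to_charZero := inferInstance
      to_finiteDimensional := hfd }
  let y : K := AdjoinSimple.gen ℚ z
  have hyz : algebraMap K ℂ y = z := AdjoinSimple.algebraMap_gen ℚ z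
  have hinj : Function.Injective (algebraMap K ℂ) := (algebraMap K ℂ).injective
  have hyi : IsIntegral ℤ y := (isIntegral_algebraMap_iff hinj).1 (hyz ▸ hz)
  have hy0 : y ≠ 0 := by
    intro h
    apply h0
    rw [← hyz, h, map_zero]
  have hyru : ∀ n : ℕ, 0 < n → y ^ n ≠ 1 := by
    intro n hn h
    apply hru n hn
    rw [← hyz, ← map_pow, h, map_one]
  have hygen : ℚ⟮y⟯ = ⊤ := by
    rw [Field.primitive_element_iff_minpoly_natDegree_eq, adjoin.finrank hzQ]
    rw [show minpoly ℚ y = minpoly ℚ z from minpoly_gen ℚ z]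
  have hfr : finrank ℚ K ≤ T := by
    rw [adjoin.finrank hzQ]
    exact hT
  obtain ⟨m, hm, h⟩ := spread_aux hyi hy0 hyru hygen hk hfr hq
  refine ⟨m, hm, fun e he hsum => h e he ?_⟩
  apply hinj
  rw [map_zero, map_sum, ← hsum]
  refine Finset.sum_congr rfl fun i _ => ?_
  rw [map_mul, map_pow, hyz, map_intCast]

end Pool.Agent.Helper68.Spread
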